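import Pool.Agent.W66.LP

set_option autoImplicit false

/-!
# Near pairs for twisted low digits
-/

open Filter Topology Finset
open scoped Real
open Pool.Agent.Helper112.E456.SieveAux (DD)

namespace Pool.Agent.K3h13.AD

open Pool.Agent.W66
open Pool.Agent.W66L
open Pool.Agent.H305R2 (roughPart roughPart_prime SM SM_pos SMz mem_SMz ZZ VV sum_rough_eq sum_le_VV
  tail_le ZZ_le_exp ZZ_nonneg VV_nonneg VV_tendsto log_nat_tendsto)

/-- the common estimate -/
lemma near_aux {b v : ℕ} (hb : 2 ≤ b) (hv : 1 ≤ v) : ∃ C : ℝ, 0 < C ∧ ∀ᶠ p : ℕ in atTop,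
    ∀ h t : ℕ, h ≤ p → 0 < t → t < (b * v) ^ p → ∀ b₁ b₂ : ℕ,
    DD 1 b₁ (v ^ h) b₂ = v ^ h * (b ^ p * t) →
    ∀ S : Finset ℕ, S ⊆ Icc 1 (b ^ p) →
    (∀ n ∈ S, ∀ l : ℕ, l.Prime → (l : ℝ) ≤ Real.exp (Real.log b * p / 8) → p + h < l →
      ¬ l ∣ 1 * n + b₁ ∧ ¬ l ∣ v ^ h * n + b₂) →
    (S.card : ℝ) ≤ C * (Real.log p / p) ^ 2 * (b : ℝ) ^ p := by
  obtain ⟨C0, hC0, hsv⟩ := sift_two
  have hbv2 : 2 ≤ b * v := by nlinarith
  obtain ⟨C1, hC1, hrat⟩ := ratio_bound hbv2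
  set lb := Real.log b with hlb
  have hlb0 : 0 < lb := Real.log_pos (by exact_mod_cast hb)
  refine ⟨C0 * (2 * C1) ^ 2 / lb ^ 2, by positivity, ?_⟩
  obtain ⟨P, hP⟩ := eventually_atTop.1 hrat
  filter_upwards [eventually_ge_atTop P, eventually_ge_atTop 2] with p hpP hp2 h t hhp ht htb b₁ b₂
    hDDe S hS hSl
  have hp2' : (2 : ℝ) ≤ p := by exact_mod_cast hp2
  have hp0 : (0 : ℝ) < p := by linarith
  set q := p + h with hq
  have hbr : (2 : ℝ) ≤ b := by exact_mod_cast hb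
  have hbp : (b : ℝ) ^ p = Real.exp (lb * p) := by
    rw [mul_comm, Real.exp_nat_mul, hlb, Real.exp_log (by linarith)]
  have hH2 : 2 ≤ b ^ p := by
    calc 2 ≤ b ^ 1 := by simpa using hb
      _ ≤ b ^ p := Nat.pow_le_pow_right (by omega) (by omega)
  have hq2 : 2 ≤ q := by omega
  have hM0 : MM q (b * v) p t ≠ 0 := MM_ne hbv2 ht
  have hvh : 0 < v ^ h := by positivity
  have hDD : DD 1 b₁ (v ^ h) b₂ ∣ MM q (b * v) p t := by
    rw [hDDe]
    unfold MM
    refine dvd_mul_of_dvd_right ?_ _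
    rw [mul_pow]
    obtain ⟨k, rfl⟩ := Nat.exists_eq_add_of_le hhp
    refine ⟨v ^ k, ?_⟩
    ring
  have hcastN : ((b ^ p : ℕ) : ℝ) = (b : ℝ) ^ p := by push_cast; rfl
  have hz : ((b ^ p : ℕ) : ℝ) ^ ((1 : ℝ) / 8) = Real.exp (lb * p / 8) := by
    rw [hcastN, hbp, ← Real.exp_mul]; ring_nf
  have hmain := hsv 1 b₁ (v ^ h) b₂ (b ^ p) (MM q (b * v) p t) one_pos hvh
    (two_dvd_MM hq2) hM0 hDD hH2 S hS (by
      intro n hn l hl hlz hlM
      have hql := lt_of_not_dvd_MM hl hlM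
      rw [hz] at hlz
      exact hSl n hn l hl hlz hql)
  have hr1 := hP q (by omega) p t (by omega) ht htb
  have hlq : Real.log q ≤ 2 * Real.log p := by
    have hq2p : (q : ℝ) ≤ p * p := by
      have : q ≤ p * p := by nlinarith
      exact_mod_cast this
    calc Real.log q ≤ Real.log (p * p) := Real.log_le_log (by positivity) hq2p
      _ = 2 * Real.log p := by rw [Real.log_mul hp0.ne' hp0.ne']; ring
  have hlq0 : 0 ≤ Real.log q := Real.log_natCast_nonneg q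
  have hlp0 : 0 ≤ Real.log p := Real.log_natCast_nonneg p
  have hr2 : ((MM q (b * v) p t : ℕ) : ℝ) / (Nat.totient (MM q (b * v) p t) : ℝ) ≤
      2 * C1 * Real.log p := by
    calc _ ≤ C1 * Real.log q := hr1
      _ ≤ C1 * (2 * Real.log p) := by gcongr
      _ = _ := by ring
  have hr0 : 0 ≤ ((MM q (b * v) p t : ℕ) : ℝ) / (Nat.totient (MM q (b * v) p t) : ℝ) := by
    positivity
  have hlogH : Real.log ((b ^ p : ℕ) : ℝ) = lb * p := by
    rw [hcastN, hbp, Real.log_exp]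
  have hlbp : 0 < lb * p := by positivity
  calc (S.card : ℝ) ≤ C0 * (((MM q (b * v) p t : ℕ) : ℝ) /
        (Nat.totient (MM q (b * v) p t) : ℝ)) ^ 2 *
        (b ^ p : ℕ) / (Real.log ((b ^ p : ℕ) : ℝ)) ^ 2 := hmain
    _ ≤ C0 * (2 * C1 * Real.log p) ^ 2 * (b ^ p : ℕ) / (lb * p) ^ 2 := by
        rw [hlogH]
        gcongr
    _ = _ := by rw [hcastN]; field_simp

/-- the condition on an integer -/
def Gd (q : ℕ) (E S : ℝ) (m : ℕ) : Prop :=
  (roughPart q m).Prime ∧ E ≤ m ∧ ((m / roughPart q m : ℕ) : ℝ) < S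

/-- pairs on a line above the diagonal -/
lemma near_up {b v : ℕ} (hb : 2 ≤ b) (hv : 1 ≤ v) : ∃ C : ℝ, 0 < C ∧ ∀ᶠ p : ℕ in atTop,
    ∀ h t : ℕ, h ≤ p → 0 < t → t < b ^ h → ∀ T : Finset ℕ,
    (∀ x ∈ T, x < b ^ p ∧
      Gd p (Real.exp (3 * (Real.log b * p) / 4)) (Real.exp (Real.log b * p / 2)) x ∧
      Gd (p + h) (Real.exp (3 * (Real.log b * p) / 4)) (Real.exp (Real.log b * p / 2))
        (v ^ h * x + b ^ p * t)) →
    (T.card : ℝ) ≤ C * (Real.log p / p) ^ 2 * (b : ℝ) ^ p := by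
  obtain ⟨C, hC, hmain⟩ := near_aux hb hv
  refine ⟨C, hC, ?_⟩
  filter_upwards [hmain, eventually_ge_atTop 1] with p hp hp1 h t hhp ht htb T hT
  have hlb0 : 0 < Real.log b := Real.log_pos (by exact_mod_cast hb)
  have hp0 : (0 : ℝ) < p := by exact_mod_cast hp1
  have hzS : Real.exp (Real.log b * p / 8) * Real.exp (Real.log b * p / 2) ≤
      Real.exp (3 * (Real.log b * p) / 4) := by
    rw [← Real.exp_add]
    apply Real.exp_le_exp.2
    have : 0 < Real.log b * p := by positivity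
    linarith
  refine hp h t hhp ht ?_ 0 (b ^ p * t) ?_ T ?_ ?_
  · calc t < b ^ h := htb
      _ ≤ (b * v) ^ h := Nat.pow_le_pow_left (by nlinarith) _
      _ ≤ (b * v) ^ p := Nat.pow_le_pow_right (by nlinarith) hhp
  · unfold DD
    have e2 : ((((1 * (b ^ p * t) : ℕ) : ℤ)) - ((v ^ h * 0 : ℕ) : ℤ)) = ((b ^ p * t : ℕ) : ℤ) := by
      push_cast; ring
    rw [e2, Int.natAbs_natCast, one_mul]
  · intro x hx
    obtain ⟨h1, h2, _⟩ := hT x hx
    rw [mem_Icc]
    refine ⟨?_, h1.le⟩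
    rcases Nat.eq_zero_or_pos x with h0 | h0
    · exfalso
      rw [h0] at h2
      have := h2.2.1
      have h3 := Real.exp_pos (3 * (Real.log b * p) / 4)
      simp only [Nat.cast_zero] at this
      linarith
    · exact h0
  · intro x hx l hl hlz hlq
    obtain ⟨h1, ⟨h2, h3, h4⟩, h5, h6, h7⟩ := hT x hx
    rw [one_mul, add_zero]
    exact ⟨no_mid_prime h2 h4 (hzS.trans h3) hl (by omega) hlz,
      no_mid_prime h5 h7 (hzS.trans h6) hl hlq hlz⟩

/-- pairs on a line below the diagonal -/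
lemma near_dn {b v : ℕ} (hb : 2 ≤ b) (hv : 1 ≤ v) (hvb : v < b) : ∃ C : ℝ, 0 < C ∧
    ∀ᶠ p : ℕ in atTop, ∀ h t : ℕ, h ≤ p → 0 < t → t < v ^ h → ∀ T : Finset ℕ,
    (∀ x ∈ T, x < b ^ p ∧ b ^ p * t < v ^ h * x ∧
      Gd p (Real.exp (3 * (Real.log b * p) / 4)) (Real.exp (Real.log b * p / 2)) x ∧
      Gd (p + h) (Real.exp (3 * (Real.log b * p) / 4)) (Real.exp (Real.log b * p / 2))
        (v ^ h * x - b ^ p * t)) →
    (T.card : ℝ) ≤ C * (Real.log p / p) ^ 2 * (b : ℝ) ^ p + 1 := by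
  obtain ⟨C, hC, hmain⟩ := near_aux hb hv
  refine ⟨C, hC, ?_⟩
  filter_upwards [hmain, eventually_ge_atTop 1] with p hp hp1 h t hhp ht htb T hT
  have hlb0 : 0 < Real.log b := Real.log_pos (by exact_mod_cast hb)
  have hp0 : (0 : ℝ) < p := by exact_mod_cast hp1
  have hzS : Real.exp (Real.log b * p / 8) * Real.exp (Real.log b * p / 2) ≤
      Real.exp (3 * (Real.log b * p) / 4) := by
    rw [← Real.exp_add]
    apply Real.exp_le_exp.2
    have : 0 < Real.log b * p := by positivity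
    linarith
  have hvh : 0 < v ^ h := by positivity
  set x0 := b ^ p * t / v ^ h with hx0
  have hx0a : v ^ h * x0 ≤ b ^ p * t := Nat.mul_div_le _ _
  have hx0b : b ^ p * t < v ^ h * (x0 + 1) := by
    have := Nat.lt_mul_div_succ (b ^ p * t) hvh
    simpa using this
  set b₁ := x0 + 1 with hb1
  obtain ⟨b₂, hb2⟩ := Nat.exists_eq_add_of_le hx0b.le
  have hxb : ∀ x ∈ T, b₁ ≤ x := by
    intro x hx
    obtain ⟨_, h2, _⟩ := hT x hx
    by_contra hcon
    push Not at hcon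
    have : x ≤ x0 := by omega
    have h3 : v ^ h * x ≤ v ^ h * x0 := Nat.mul_le_mul_left _ this
    omega
  -- shift
  have hcard : ((T.filter (fun x => x ≠ b₁)).image (fun x => x - b₁)).card =
      (T.filter (fun x => x ≠ b₁)).card := by
    apply Finset.card_image_of_injOn
    intro x hx y hy hxy
    rw [Finset.mem_coe, mem_filter] at hx hy
    have h1 := hxb x hx.1
    have h2 := hxb y hy.1
    simp only at hxy
    omega
  have hsum : T.card ≤ (T.filter (fun x => x ≠ b₁)).card + 1 := by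
    rw [← Finset.card_filter_add_card_filter_not (s := T) (fun x => x ≠ b₁)]
    have : (T.filter (fun x => ¬ x ≠ b₁)).card ≤ 1 := by
      rw [Finset.card_le_one]
      intro x hx y hy
      rw [mem_filter] at hx hy
      have h1 := not_not.1 hx.2
      have h2 := not_not.1 hy.2
      rw [h1, h2]
    omega
  have hmn := hp h t hhp ht (by
    calc t < v ^ h := htb
      _ ≤ (b * v) ^ h := Nat.pow_le_pow_left (by nlinarith) _
      _ ≤ (b * v) ^ p := Nat.pow_le_pow_right (by nlinarith) hhp) b₁ b₂ (by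
    unfold DD
    have e2 : ((((1 * b₂ : ℕ) : ℤ)) - ((v ^ h * b₁ : ℕ) : ℤ)) = -((b ^ p * t : ℕ) : ℤ) := by
      rw [hb2]
      push_cast; ring
    have e3 : ((((1 * b₂ : ℕ) : ℤ)) - ((v ^ h * b₁ : ℕ) : ℤ)).natAbs = b ^ p * t := by
      rw [e2, Int.natAbs_neg, Int.natAbs_natCast]
    rw [e3, one_mul]) ((T.filter (fun x => x ≠ b₁)).image (fun x => x - b₁)) (by
    intro n hn
    rw [mem_image] at hn
    obtain ⟨x, hx, rfl⟩ := hn
    rw [mem_filter] at hx
    have h1 := hxb x hx.1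
    have h2 := (hT x hx.1).1
    have h3 : x ≠ b₁ := hx.2
    rw [mem_Icc]
    refine ⟨?_, ?_⟩
    · show 1 ≤ x - b₁
      omega
    · show x - b₁ ≤ b ^ p
      exact (Nat.sub_le _ _).trans h2.le) (by
    intro n hn l hl hlz hlq
    rw [mem_image] at hn
    obtain ⟨x, hx, rfl⟩ := hn
    rw [mem_filter] at hx
    have hx1 := hxb x hx.1
    obtain ⟨h1, h1', ⟨h2, h3, h4⟩, h5, h6, h7⟩ := hT x hx.1
    have e1 : 1 * (x - b₁) + b₁ = x := by omega
    have e2 : v ^ h * (x - b₁) + b₂ = v ^ h * x - b ^ p * t := by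
      obtain ⟨y, rfl⟩ := Nat.exists_eq_add_of_le hx1
      rw [Nat.add_sub_cancel_left]
      have : v ^ h * (b₁ + y) = b ^ p * t + (v ^ h * y + b₂) := by
        rw [mul_add, hb2]; ring
      omega
    rw [e1, e2]
    exact ⟨no_mid_prime h2 h4 (hzS.trans h3) hl (by omega) hlz,
      no_mid_prime h5 h7 (hzS.trans h6) hl hlq hlz⟩)
  rw [hcard] at hmn
  have h9 : (T.card : ℝ) ≤ (T.filter (fun x => x ≠ b₁)).card + 1 := by exact_mod_cast hsum
  linarith

end Pool.Agent.K3h13.AD
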