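import Pool.Agent.W66.LR
import Pool.Agent.K3h13.AD.NP

set_option autoImplicit false

/-!
# The number of near pairs for twisted low digits
-/

open Filter Topology Finset
open scoped Real

namespace Pool.Agent.K3h13.AD

open Pool.Agent.W66
open Pool.Agent.W66L
open Pool.Agent.H305R2 (roughPart roughPart_prime SM SM_pos SMz mem_SMz ZZ VV sum_rough_eq sum_le_VV
  tail_le ZZ_le_exp ZZ_nonneg VV_nonneg VV_tendsto log_nat_tendsto)

/-- twisted joint count -/
noncomputable def JT (b p q w : ℕ) : ℝ :=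
  ∑ m ∈ UU b q, rpi p ((w * m) % b ^ p) * rpi q m

lemma rough_pos {q m : ℕ} (hm : (roughPart q m).Prime) : 1 ≤ m := by
  rcases Nat.eq_zero_or_pos m with h0 | h0
  · exfalso
    rw [h0] at hm
    unfold roughPart at hm
    simp [Nat.not_prime_one] at hm
  · exact h0

theorem near_tw {b v : ℕ} (hb : 2 ≤ b) (hv : 1 ≤ v) (hvb : v < b) : ∃ K : ℝ, 0 < K ∧
    ∀ᶠ p : ℕ in atTop, ∀ q : ℕ, p < q → q ≤ 2 * p → ∀ w : ℕ, w * v ^ (q - p) ≡ 1 [MOD b ^ p] →
    JT b p q w ≤ AA b p + K * (b : ℝ) ^ q * (Real.log p / p) ^ 2 := by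
  classical
  set lb := Real.log b with hlb
  have hlb0 : 0 < lb := Real.log_pos (by exact_mod_cast hb)
  obtain ⟨C, hC, hnt⟩ := near_up hb hv
  obtain ⟨C', hC', hnt'⟩ := near_dn hb hv hvb
  obtain ⟨P3, hP3⟩ := eventually_atTop.1 (ZZ_le_exp (c := lb / 16) (by positivity))
  have hsm := exp_small2 (c := lb / 8) (by positivity)
  refine ⟨C + (C' + 1) + 5, by positivity, ?_⟩
  filter_upwards [hnt, hnt', eventually_ge_atTop P3, hsm, eventually_ge_atTop 2] with p hntp hntp'
    hpP3 hsmp hp2 q hpq hq2p w hw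
  obtain ⟨h, rfl⟩ := Nat.exists_eq_add_of_le hpq.le
  rw [Nat.add_sub_cancel_left] at hw
  have hhp : h ≤ p := by omega
  have hp0 : (0 : ℝ) < p := by exact_mod_cast (by omega : 0 < p)
  have hbr : (2 : ℝ) ≤ b := by exact_mod_cast hb
  have hb0 : 0 < b := by omega
  have hbp : (b : ℝ) ^ p = Real.exp (lb * p) := by
    rw [mul_comm, Real.exp_nat_mul, hlb, Real.exp_log (by linarith)]
  set q := p + h with hq
  have hlbp : 0 < lb * p := by positivity
  set S := Real.exp (lb * p / 2) with hS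
  have hS0 : 0 < S := Real.exp_pos _
  have hSm : S ^ (-(1 / 2) : ℝ) = Real.exp (-(lb * p / 4)) := by
    rw [hS, ← Real.exp_mul]; ring_nf
  have hqr : (q : ℝ) ≤ 2 * p := by exact_mod_cast hq2p
  have hdecay : ∀ m : ℕ, p ≤ m → (m : ℝ) ≤ 2 * p →
      S ^ (-(1 / 2) : ℝ) * ZZ m ≤ (Real.log p / p) ^ 2 := by
    intro m hpm hm
    rw [hSm]
    calc Real.exp (-(lb * p / 4)) * ZZ m ≤ Real.exp (-(lb * p / 4)) * Real.exp (lb / 16 * m) :=
          mul_le_mul_of_nonneg_left (hP3 m (by omega)) (Real.exp_pos _).le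
      _ = Real.exp (-(lb * p / 4) + lb / 16 * m) := (Real.exp_add _ _).symm
      _ ≤ Real.exp (-(lb / 8 * p)) := by
          rw [Real.exp_le_exp]
          nlinarith
      _ ≤ _ := hsmp
  have hw0 : 0 ≤ (Real.log p / p) ^ 2 := by positivity
  set N := b ^ p with hN
  have hN0 : 0 < N := by positivity
  have hNr : (N : ℝ) = (b : ℝ) ^ p := by rw [hN]; push_cast; rfl
  have hqN : b ^ q = N * b ^ h := by rw [hq, pow_add]
  have hqNr : (b : ℝ) ^ q = (N : ℝ) * (b : ℝ) ^ h := by rw [hNr, hq, pow_add]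
  have hbh1 : (1 : ℝ) ≤ (b : ℝ) ^ h := one_le_pow₀ (by linarith)
  have hvh : v ^ h ≤ b ^ h := Nat.pow_le_pow_left hvb.le h
  -- the partner
  set X : ℕ → ℕ := fun m => (w * m) % N with hX
  have hXN : ∀ m, X m < N := fun m => Nat.mod_lt _ hN0
  have hXm : ∀ m, v ^ h * X m ≡ m [MOD N] := by
    intro m
    have h1 : v ^ h * X m ≡ v ^ h * (w * m) [MOD N] := (Nat.mod_modEq _ _).mul_left _
    have h2 : v ^ h * (w * m) ≡ 1 * m [MOD N] := by
      have : v ^ h * (w * m) = (w * v ^ h) * m := by ring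
      rw [this]
      exact hw.mul_right _
    rw [one_mul] at h2
    exact h1.trans h2
  -- the set of pairs
  set T := (range (b ^ q)).filter (fun m => m.Coprime b ∧ (roughPart p (X m)).Prime ∧
    (roughPart q m).Prime) with hT
  have hJC : JT b p q w = (T.card : ℝ) := by
    unfold JT UU
    rw [hT, Finset.card_eq_sum_ones, Finset.sum_filter, Finset.sum_filter]
    push_cast
    refine Finset.sum_congr rfl fun m _ => ?_
    unfold rpi
    have e2 : w * m % b ^ p = X m := rfl
    rw [e2]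
    by_cases h1 : m.Coprime b <;> by_cases h2 : (roughPart p (X m)).Prime <;>
      by_cases h3 : (roughPart q m).Prime <;> simp [h1, h2, h3]
  rw [hJC]
  set E := Real.exp (3 * (lb * p) / 4) with hE
  have hE0 : 0 < E := Real.exp_pos _
  set T0 := T.filter (fun m => m = v ^ h * X m) with hT0
  set T1 := T.filter (fun m => ((X m : ℕ) : ℝ) < E) with hT1
  set T2 := T.filter (fun m => S ≤ ((X m / roughPart p (X m) : ℕ) : ℝ)) with hT2
  set T3 := T.filter (fun m => S ≤ ((m / roughPart q m : ℕ) : ℝ)) with hT3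
  set T5 := T.filter (fun m : ℕ => (m : ℝ) < E) with hT5
  set T4 := T.filter (fun m => v ^ h * X m < m ∧ Gd p E S (X m) ∧ Gd q E S m) with hT4
  set T6 := T.filter (fun m => m < v ^ h * X m ∧ Gd p E S (X m) ∧ Gd q E S m) with hT6
  have hmemT : ∀ m ∈ T, m < b ^ q ∧ m.Coprime b ∧ (roughPart p (X m)).Prime ∧
      (roughPart q m).Prime := by
    intro m hm
    rw [hT, mem_filter, mem_range] at hm
    exact hm
  have hTsub : T ⊆ (((((T0 ∪ T1) ∪ T2) ∪ T3) ∪ T5) ∪ T4) ∪ T6 := by
    intro m hm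
    obtain ⟨_, _, g1, g2⟩ := hmemT m hm
    simp only [mem_union]
    by_cases h0 : m = v ^ h * X m
    · left; left; left; left; left; left; exact mem_filter.2 ⟨hm, h0⟩
    by_cases h1 : ((X m : ℕ) : ℝ) < E
    · left; left; left; left; left; right; exact mem_filter.2 ⟨hm, h1⟩
    by_cases h2 : S ≤ ((X m / roughPart p (X m) : ℕ) : ℝ)
    · left; left; left; left; right; exact mem_filter.2 ⟨hm, h2⟩
    by_cases h3 : S ≤ ((m / roughPart q m : ℕ) : ℝ)
    · left; left; left; right; exact mem_filter.2 ⟨hm, h3⟩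
    by_cases h5 : (m : ℝ) < E
    · left; left; right; exact mem_filter.2 ⟨hm, h5⟩
    have k1 : Gd p E S (X m) := ⟨g1, not_lt.1 h1, not_le.1 h2⟩
    have k2 : Gd q E S m := ⟨g2, not_lt.1 h5, not_le.1 h3⟩
    rcases lt_or_gt_of_ne h0 with h6 | h6
    · right
      exact mem_filter.2 ⟨hm, h6, k1, k2⟩
    · left; right
      exact mem_filter.2 ⟨hm, h6, k1, k2⟩
  have hcopX : ∀ m, m.Coprime b → (X m).Coprime b := by
    intro m hm
    have hp1 : 1 ≤ p := by omega
    rw [hX]
    simp only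
    rw [hN, mod_coprime hp1]
    refine Nat.Coprime.mul_left ?_ hm
    have h1 : Nat.Coprime (w * v ^ h) (b ^ p) := by
      rw [Nat.Coprime, hw.gcd_eq]
      exact Nat.gcd_one_left _
    exact Nat.Coprime.coprime_dvd_right (dvd_pow_self b (by omega))
      (Nat.Coprime.coprime_mul_right h1)
  -- T0
  have c0 : (T0.card : ℝ) ≤ AA b p := by
    rw [AA_eq_range]
    have h1 : ∑ m ∈ (range (b ^ p)).filter (fun m => m.Coprime b), rpi p m =
        (((range (b ^ p)).filter (fun m => m.Coprime b ∧ (roughPart p m).Prime)).card : ℝ) := by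
      rw [Finset.card_eq_sum_ones, Finset.sum_filter, Finset.sum_filter]
      push_cast
      refine Finset.sum_congr rfl fun m _ => ?_
      unfold rpi
      by_cases h1 : m.Coprime b
      · by_cases h2 : (roughPart p m).Prime
        · rw [if_pos h1, if_pos h2, if_pos ⟨h1, h2⟩]
        · rw [if_pos h1, if_neg h2, if_neg fun h9 => h2 h9.2]
      · rw [if_neg h1, if_neg fun h9 => h1 h9.1]
    rw [h1]
    have hinj : Set.InjOn X (T0 : Set ℕ) := by
      intro m hm m' hm' hmm
      rw [Finset.mem_coe, hT0, mem_filter] at hm hm'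
      rw [hm.2, hm'.2, hmm]
    rw [← Finset.card_image_of_injOn hinj]
    have h2 : T0.image X ⊆ (range (b ^ p)).filter (fun m => m.Coprime b ∧ (roughPart p m).Prime) := by
      intro x hx
      rw [mem_image] at hx
      obtain ⟨m, hm, rfl⟩ := hx
      rw [hT0, mem_filter] at hm
      obtain ⟨_, h3, h4, _⟩ := hmemT m hm.1
      rw [mem_filter, mem_range]
      exact ⟨hXN m, hcopX m h3, h4⟩
    exact_mod_cast Finset.card_le_card h2
  -- pairs
  have hpair : ∀ (U : Finset ℕ) (F : Finset ℕ), (∀ m ∈ U, m < b ^ q ∧ X m ∈ F) →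
      (U.card : ℝ) ≤ (F.card : ℝ) * (b : ℝ) ^ h := by
    intro U F hUF
    have hinj : Set.InjOn (fun m : ℕ => (X m, m / N)) (U : Set ℕ) := by
      intro m _ m' _ hmm
      simp only [Prod.mk.injEq] at hmm
      have h1 : m ≡ m' [MOD N] := by
        refine (hXm m).symm.trans ?_
        rw [hmm.1]
        exact hXm m'
      have h2 : m % N = m' % N := h1
      rw [← Nat.mod_add_div m N, ← Nat.mod_add_div m' N, h2, hmm.2]
    have hsub : U.image (fun m : ℕ => (X m, m / N)) ⊆ F ×ˢ (range (b ^ h)) := by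
      intro x hx
      rw [mem_image] at hx
      obtain ⟨m, hm, rfl⟩ := hx
      rw [mem_product, mem_range]
      refine ⟨(hUF m hm).2, ?_⟩
      rw [Nat.div_lt_iff_lt_mul hN0, mul_comm, ← hqN]
      exact (hUF m hm).1
    have h1 := Finset.card_le_card hsub
    rw [Finset.card_image_of_injOn hinj, card_product, card_range] at h1
    calc (U.card : ℝ) ≤ ((F.card * b ^ h : ℕ) : ℝ) := by exact_mod_cast h1
      _ = _ := by push_cast; ring
  have hexpw : Real.exp (-(lb * p / 4)) ≤ (Real.log p / p) ^ 2 := by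
    refine le_trans (Real.exp_le_exp.2 ?_) hsmp
    linarith
  have hEN : E ≤ N * (Real.log p / p) ^ 2 := by
    calc E = N * Real.exp (-(lb * p / 4)) := by
          rw [hE, hNr, hbp, ← Real.exp_add]; ring_nf
      _ ≤ _ := mul_le_mul_of_nonneg_left hexpw (by positivity)
  have hfl : (⌊E⌋₊ : ℝ) ≤ N * (Real.log p / p) ^ 2 := (Nat.floor_le hE0.le).trans hEN
  -- T1
  have c1 : (T1.card : ℝ) ≤ (b : ℝ) ^ q * (Real.log p / p) ^ 2 := by
    have h1 := hpair T1 (Ioc 0 ⌊E⌋₊) (by
      intro m hm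
      rw [hT1, mem_filter] at hm
      obtain ⟨h3, h4, h5, _⟩ := hmemT m hm.1
      refine ⟨h3, ?_⟩
      rw [mem_Ioc]
      refine ⟨rough_pos h5, ?_⟩
      rw [Nat.le_floor_iff hE0.le]
      exact hm.2.le)
    rw [Nat.card_Ioc, Nat.sub_zero] at h1
    refine h1.trans ?_
    rw [hqNr]
    calc (⌊E⌋₊ : ℝ) * (b : ℝ) ^ h ≤
        N * (Real.log p / p) ^ 2 * (b : ℝ) ^ h := mul_le_mul_of_nonneg_right hfl (by positivity)
      _ = _ := by ring
  -- T5
  have c5 : (T5.card : ℝ) ≤ (b : ℝ) ^ q * (Real.log p / p) ^ 2 := by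
    have h1 : T5 ⊆ Ioc 0 ⌊E⌋₊ := by
      intro m hm
      rw [hT5, mem_filter] at hm
      obtain ⟨h3, h4, _, h5⟩ := hmemT m hm.1
      rw [mem_Ioc]
      refine ⟨rough_pos h5, ?_⟩
      rw [Nat.le_floor_iff hE0.le]
      exact hm.2.le
    have h2 := Finset.card_le_card h1
    rw [Nat.card_Ioc, Nat.sub_zero] at h2
    have h3 : (T5.card : ℝ) ≤ (⌊E⌋₊ : ℝ) := by exact_mod_cast h2
    refine h3.trans (hfl.trans ?_)
    rw [hqNr]
    have : (N : ℝ) * (Real.log p / p) ^ 2 * 1 ≤ N * (Real.log p / p) ^ 2 * (b : ℝ) ^ h :=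
      mul_le_mul_of_nonneg_left hbh1 (by positivity)
    linarith
  -- T2
  have c2 : (T2.card : ℝ) ≤ (b : ℝ) ^ q * (Real.log p / p) ^ 2 := by
    have h1 := hpair T2 ((Icc 1 N).filter (fun m => (roughPart p m).Prime ∧
      S ≤ ((m / roughPart p m : ℕ) : ℝ))) (by
      intro m hm
      rw [hT2, mem_filter] at hm
      obtain ⟨h3, h4, h5, _⟩ := hmemT m hm.1
      refine ⟨h3, ?_⟩
      rw [mem_filter, mem_Icc]
      exact ⟨⟨rough_pos h5, (hXN m).le⟩, h5, hm.2⟩)
    refine h1.trans ?_
    rw [hqNr]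
    have h2 := large_smooth_count p N hS0
    have h3 := hdecay p le_rfl (by linarith)
    calc _ ≤ (N * (S ^ (-(1 / 2) : ℝ) * ZZ p)) * (b : ℝ) ^ h :=
          mul_le_mul_of_nonneg_right h2 (by positivity)
      _ ≤ (N * (Real.log p / p) ^ 2) * (b : ℝ) ^ h := by gcongr
      _ = _ := by ring
  -- T3
  have c3 : (T3.card : ℝ) ≤ (b : ℝ) ^ q * (Real.log p / p) ^ 2 := by
    have h1 : T3 ⊆ (Icc 1 (b ^ q)).filter (fun m => (roughPart q m).Prime ∧
      S ≤ ((m / roughPart q m : ℕ) : ℝ)) := by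
      intro m hm
      rw [hT3, mem_filter] at hm
      obtain ⟨h3, h4, _, h5⟩ := hmemT m hm.1
      rw [mem_filter, mem_Icc]
      exact ⟨⟨rough_pos h5, h3.le⟩, h5, hm.2⟩
    have h2 := large_smooth_count q (b ^ q) hS0
    have h3 := hdecay q (by omega) hqr
    calc (T3.card : ℝ) ≤ _ := by exact_mod_cast Finset.card_le_card h1
      _ ≤ ((b ^ q : ℕ) : ℝ) * (S ^ (-(1 / 2) : ℝ) * ZZ q) := h2
      _ ≤ ((b ^ q : ℕ) : ℝ) * (Real.log p / p) ^ 2 := by gcongr
      _ = _ := by push_cast; ring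
  -- T4
  have c4 : (T4.card : ℝ) ≤ C * (b : ℝ) ^ q * (Real.log p / p) ^ 2 := by
    have hkey : ∀ m ∈ T4, m = v ^ h * X m + N * ((m - v ^ h * X m) / N) := by
      intro m hm
      rw [hT4, mem_filter] at hm
      have h1 : N ∣ m - v ^ h * X m := (Nat.modEq_iff_dvd' hm.2.1.le).1 (hXm m)
      rw [Nat.mul_div_cancel' h1]
      omega
    have h1 := Finset.card_eq_sum_card_fiberwise (f := fun m : ℕ => (m - v ^ h * X m) / N) (s := T4)
      (t := range (b ^ h)) (by
        intro m hm
        have hm' := (mem_filter.1 (Finset.mem_coe.1 hm)).1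
        rw [Finset.mem_coe, mem_range, Nat.div_lt_iff_lt_mul hN0, mul_comm (b ^ h) N, ← hqN]
        exact (Nat.sub_le _ _).trans_lt (hmemT m hm').1)
    rw [h1]
    push_cast
    have h2 : ∀ t ∈ range (b ^ h), ((T4.filter (fun m => (m - v ^ h * X m) / N = t)).card : ℝ) ≤
        C * (Real.log p / p) ^ 2 * (b : ℝ) ^ p := by
      intro t ht
      rw [mem_range] at ht
      rcases Nat.eq_zero_or_pos t with h0 | h0
      · have : T4.filter (fun m => (m - v ^ h * X m) / N = t) = ∅ := by
          rw [Finset.filter_eq_empty_iff]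
          intro m hm hmt
          have h3 := hkey m hm
          rw [hmt, h0, mul_zero, add_zero] at h3
          rw [hT4, mem_filter] at hm
          have := hm.2.1
          omega
        rw [this]
        simp only [Finset.card_empty, Nat.cast_zero]
        positivity
      · have hinj3 : Set.InjOn X (T4.filter (fun m => (m - v ^ h * X m) / N = t) : Set ℕ) := by
          intro m hm m' hm' hmm
          rw [Finset.mem_coe, mem_filter] at hm hm'
          rw [hkey m hm.1, hkey m' hm'.1, hm.2, hm'.2, hmm]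
        rw [← Finset.card_image_of_injOn hinj3]
        refine hntp h t hhp h0 ht _ ?_
        intro x hx
        rw [mem_image] at hx
        obtain ⟨m, hm, rfl⟩ := hx
        rw [mem_filter] at hm
        have e : v ^ h * X m + b ^ p * t = m := by
          have := hkey m hm.1
          rw [hm.2] at this
          exact this.symm
        rw [e]
        have h4 := (mem_filter.1 hm.1).2
        exact ⟨hXN m, h4.2.1, h4.2.2⟩
    calc ∑ t ∈ range (b ^ h), ((T4.filter (fun m => (m - v ^ h * X m) / N = t)).card : ℝ) ≤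
          ∑ t ∈ range (b ^ h), C * (Real.log p / p) ^ 2 * (b : ℝ) ^ p := Finset.sum_le_sum h2
      _ = _ := by
          rw [Finset.sum_const, card_range, nsmul_eq_mul, hqNr, hNr]
          push_cast
          ring
  -- T6
  have c6 : (T6.card : ℝ) ≤ (C' + 1) * (b : ℝ) ^ q * (Real.log p / p) ^ 2 := by
    have hkey : ∀ m ∈ T6, v ^ h * X m = m + N * ((v ^ h * X m - m) / N) := by
      intro m hm
      rw [hT6, mem_filter] at hm
      have h1 : N ∣ v ^ h * X m - m := (Nat.modEq_iff_dvd' hm.2.1.le).1 (hXm m).symm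
      rw [Nat.mul_div_cancel' h1]
      omega
    have h1 := Finset.card_eq_sum_card_fiberwise (f := fun m : ℕ => (v ^ h * X m - m) / N) (s := T6)
      (t := range (v ^ h)) (by
        intro m hm
        have hvh0 : 0 < v ^ h := by positivity
        rw [Finset.mem_coe, mem_range, Nat.div_lt_iff_lt_mul hN0]
        exact (Nat.sub_le _ _).trans_lt (Nat.mul_lt_mul_of_pos_left (hXN m) hvh0))
    rw [h1]
    push_cast
    have h2 : ∀ t ∈ range (v ^ h), ((T6.filter (fun m => (v ^ h * X m - m) / N = t)).card : ℝ) ≤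
        (C' + 1) * (Real.log p / p) ^ 2 * (b : ℝ) ^ p := by
      intro t ht
      rw [mem_range] at ht
      have hone : (1 : ℝ) ≤ (Real.log p / p) ^ 2 * (b : ℝ) ^ p := by
        have h3 : 1 ≤ E := Real.one_le_exp (by positivity)
        have h4 : E ≤ (b : ℝ) ^ p * (Real.log p / p) ^ 2 := by rw [← hNr]; exact hEN
        linarith
      rcases Nat.eq_zero_or_pos t with h0 | h0
      · have : T6.filter (fun m => (v ^ h * X m - m) / N = t) = ∅ := by
          rw [Finset.filter_eq_empty_iff]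
          intro m hm hmt
          have h3 := hkey m hm
          rw [hmt, h0, mul_zero, add_zero] at h3
          rw [hT6, mem_filter] at hm
          have := hm.2.1
          omega
        rw [this]
        simp only [Finset.card_empty, Nat.cast_zero]
        positivity
      · have hinj3 : Set.InjOn X (T6.filter (fun m => (v ^ h * X m - m) / N = t) : Set ℕ) := by
          intro m hm m' hm' hmm
          rw [Finset.mem_coe, mem_filter] at hm hm'
          have h3 := hkey m hm.1
          have h4 := hkey m' hm'.1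
          rw [hm.2] at h3
          rw [hm'.2, ← hmm] at h4
          omega
        rw [← Finset.card_image_of_injOn hinj3]
        have h9 := hntp' h t hhp h0 ht ((T6.filter (fun m => (v ^ h * X m - m) / N = t)).image X) (by
          intro x hx
          rw [mem_image] at hx
          obtain ⟨m, hm, rfl⟩ := hx
          rw [mem_filter] at hm
          have h4 := (mem_filter.1 hm.1).2
          have h3 := hkey m hm.1
          rw [hm.2] at h3
          have h5 : 1 ≤ m := rough_pos h4.2.2.1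
          have e : v ^ h * X m - b ^ p * t = m := by rw [h3]; exact Nat.add_sub_cancel _ _
          rw [e]
          refine ⟨hXN m, ?_, h4.2.1, h4.2.2⟩
          rw [h3]
          omega)
        refine h9.trans ?_
        nlinarith
    have hv2 : ((v ^ h : ℕ) : ℝ) ≤ (b : ℝ) ^ h := by
      have : ((v ^ h : ℕ) : ℝ) ≤ ((b ^ h : ℕ) : ℝ) := by exact_mod_cast hvh
      push_cast at this ⊢
      exact this
    calc ∑ t ∈ range (v ^ h), ((T6.filter (fun m => (v ^ h * X m - m) / N = t)).card : ℝ) ≤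
          ∑ t ∈ range (v ^ h), (C' + 1) * (Real.log p / p) ^ 2 * (b : ℝ) ^ p := Finset.sum_le_sum h2
      _ = ((v ^ h : ℕ) : ℝ) * ((C' + 1) * (Real.log p / p) ^ 2 * (b : ℝ) ^ p) := by
          rw [Finset.sum_const, card_range, nsmul_eq_mul]
      _ ≤ (b : ℝ) ^ h * ((C' + 1) * (Real.log p / p) ^ 2 * (b : ℝ) ^ p) :=
          mul_le_mul_of_nonneg_right hv2 (by positivity)
      _ = _ := by
          rw [hqNr, hNr]
          ring
  have hcard : (T.card : ℝ) ≤ T0.card + T1.card + T2.card + T3.card + T5.card + T4.card +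
      T6.card := by
    have h1 := Finset.card_le_card hTsub
    have h2 := Finset.card_union_le (((((T0 ∪ T1) ∪ T2) ∪ T3) ∪ T5) ∪ T4) T6
    have h3 := Finset.card_union_le ((((T0 ∪ T1) ∪ T2) ∪ T3) ∪ T5) T4
    have h4 := Finset.card_union_le (((T0 ∪ T1) ∪ T2) ∪ T3) T5
    have h5 := Finset.card_union_le ((T0 ∪ T1) ∪ T2) T3
    have h6 := Finset.card_union_le (T0 ∪ T1) T2
    have h7 := Finset.card_union_le T0 T1
    exact_mod_cast (by omega : T.card ≤ T0.card + T1.card + T2.card + T3.card + T5.card + T4.card +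
      T6.card)
  have hY0 : 0 ≤ (b : ℝ) ^ q * (Real.log p / p) ^ 2 := by positivity
  calc (T.card : ℝ) ≤ AA b p + (b : ℝ) ^ q * (Real.log p / p) ^ 2 +
        (b : ℝ) ^ q * (Real.log p / p) ^ 2 + (b : ℝ) ^ q * (Real.log p / p) ^ 2 +
        (b : ℝ) ^ q * (Real.log p / p) ^ 2 +
        C * (b : ℝ) ^ q * (Real.log p / p) ^ 2 +
        (C' + 1) * (b : ℝ) ^ q * (Real.log p / p) ^ 2 := by linarith
    _ ≤ _ := by nlinarith

end Pool.Agent.K3h13.AD
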