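import Pool.Agent.W66.LU
import Pool.Agent.K3h13.AD.NS

set_option autoImplicit false

/-!
# The almost sure law for twisted low digits
-/

open Filter Topology Finset MeasureTheory
open scoped Real

namespace Pool.Agent.K3h13.AD

open Pool.Agent.W66
open Pool.Agent.W66L
open Pool.Agent.H305R2 (roughPart smp smp_mono one_le_smp log_smp_ge log_smp_le tendsto_smp log_smp_div
  log_nat_tendsto cesaro)

/-- `s n` is uniform on the reduced residues modulo `b ^ n`, and `s p` is a multiple of `s q` -/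
structure TS {Ω : Type*} [MeasurableSpace Ω] (b : ℕ) (μ : Measure Ω) (s : ℕ → Ω → ℕ)
    (w : ℕ → ℕ → ℕ) : Prop where
  meas : ∀ n, Measurable (s n)
  int : ∀ n, 1 ≤ n → ∀ f : ℕ → ℝ, ∫ x, f (s n x) ∂μ = (∑ a ∈ UU b n, f a) / ((b ^ n).totient : ℝ)
  rel : ∀ p q, p ≤ q → ∀ x, s p x = w p q * s q x % b ^ p

section law

variable {Ω : Type*} [MeasurableSpace Ω] {μ : Measure Ω} [IsProbabilityMeasure μ] {b : ℕ}
  {r : ℕ → Ω → ℕ} {w : ℕ → ℕ → ℕ}

/-- the twisted residues -/
def tw (b v : ℕ) (r : ℕ → Ω → ℕ) (n : ℕ) (x : Ω) : ℕ := v ^ n * r n x % b ^ n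

/-- an inverse of `v ^ h` modulo `b ^ p` -/
noncomputable def iv (b v p h : ℕ) : ℕ := (((v : ZMod (b ^ p)) ^ h)⁻¹).val

lemma iv_spec {b v : ℕ} (hb : 2 ≤ b) (hv : v.Coprime b) (p h : ℕ) :
    iv b v p h * v ^ h ≡ 1 [MOD b ^ p] := by
  haveI : NeZero (b ^ p) := ⟨by positivity⟩
  rw [← ZMod.natCast_eq_natCast_iff]
  unfold iv
  have h1 : IsUnit ((v : ZMod (b ^ p)) ^ h) := by
    apply IsUnit.pow
    rw [ZMod.isUnit_iff_coprime]
    exact Nat.Coprime.pow_right p hv
  push_cast
  rw [ZMod.natCast_zmod_val]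
  exact ZMod.inv_mul_of_unit _ h1

lemma tw_TS {v : ℕ} (hb : 2 ≤ b) (hv : v.Coprime b) (hr : Low b μ r) {w : ℕ → ℕ → ℕ}
    (hw : ∀ p q, w p q * v ^ (q - p) ≡ 1 [MOD b ^ p]) : TS b μ (tw b v r) w := by
  refine ⟨fun n => ?_, fun n hn f => ?_, fun p q hpq x => ?_⟩
  · exact (measurable_from_nat (f := fun m => v ^ n * m % b ^ n)).comp (hr.meas n)
  · have h1 := hr.integral hb hn (fun m => f (v ^ n * m % b ^ n))
    rw [perm_eq hb hn (Nat.Coprime.pow_left n hv) f] at h1
    exact h1
  · unfold tw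
    obtain ⟨h, rfl⟩ := Nat.exists_eq_add_of_le hpq
    have h1 := hw p (p + h)
    rw [Nat.add_sub_cancel_left] at h1
    have h2 : w p (p + h) * (v ^ (p + h) * r (p + h) x % b ^ (p + h)) ≡
        w p (p + h) * (v ^ (p + h) * r (p + h) x) [MOD b ^ p] := by
      refine Nat.ModEq.mul_left _ ?_
      exact (Nat.mod_modEq _ _).of_dvd (pow_dvd_pow b hpq)
    have h3 : w p (p + h) * (v ^ (p + h) * r (p + h) x) ≡ 1 * (v ^ p * r (p + h) x) [MOD b ^ p] := by
      have e : w p (p + h) * (v ^ (p + h) * r (p + h) x) =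
          w p (p + h) * v ^ h * (v ^ p * r (p + h) x) := by rw [pow_add]; ring
      rw [e]
      exact h1.mul_right _
    have h4 : 1 * (v ^ p * r (p + h) x) ≡ v ^ p * r p x [MOD b ^ p] := by
      rw [one_mul]
      refine Nat.ModEq.mul_left _ ?_
      have h5 := hr.mod hpq hb x
      have h6 : r (p + h) x ≡ r (p + h) x % b ^ p [MOD b ^ p] := (Nat.mod_modEq _ _).symm
      rwa [h5] at h6
    exact ((h2.trans h3).trans h4).symm

/-- the centred indicators -/
noncomputable def Gc (b : ℕ) (r : ℕ → Ω → ℕ) (p : ℕ) (x : Ω) : ℝ :=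
  if p.Prime then rpi p (r p x) - mq b p else 0

lemma Gc_meas (hr : TS b μ r w) (p : ℕ) : Measurable (Gc b r p) := by
  unfold Gc
  split_ifs
  · exact (measurable_from_nat (f := rpi p)).comp (hr.meas p) |>.sub_const _
  · exact measurable_const

omit [MeasurableSpace Ω] in
lemma Gc_le (hb : 2 ≤ b) (p : ℕ) (x : Ω) : |Gc b r p x| ≤ 1 := by
  unfold Gc
  split_ifs with hp
  · have h1 := rpi_nonneg p (r p x)
    have h2 := rpi_le_one p (r p x)
    have h3 := mq_nonneg b p
    have h4 := mq_le_one hb hp.one_lt.le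
    rw [abs_le]
    constructor <;> linarith
  · simp

lemma Gc_diag (hr : TS b μ r w) (hb : 2 ≤ b) (p : ℕ) (hp1 : 1 ≤ p) :
    ∫ x, (Gc b r p x) ^ 2 ∂μ ≤ mq b p := by
  by_cases hp : p.Prime
  · have h1 : ∀ x, (Gc b r p x) ^ 2 = (fun m : ℕ => (rpi p m - mq b p) ^ 2) (r p x) := by
      intro x
      unfold Gc
      rw [if_pos hp]
    simp only [h1]
    have h2 := hr.int p hp1 (fun m : ℕ => (rpi p m - mq b p) ^ 2)
    rw [h2, div_le_iff₀ (tot_pow_pos hb p)]
    have h3 : ∀ m : ℕ, (rpi p m - mq b p) ^ 2 = rpi p m - 2 * mq b p * rpi p m + mq b p ^ 2 := by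
      intro m
      have : rpi p m ^ 2 = rpi p m := by unfold rpi; split_ifs <;> norm_num
      calc (rpi p m - mq b p) ^ 2 = rpi p m ^ 2 - 2 * mq b p * rpi p m + mq b p ^ 2 := by ring
        _ = _ := by rw [this]
    simp only [h3]
    rw [Finset.sum_add_distrib, Finset.sum_sub_distrib, ← Finset.mul_sum, sum_UU_rpi hb,
      Finset.sum_const, nsmul_eq_mul, card_UU hb hp1]
    have h4 := tot_pow_pos hb p
    nlinarith [sq_nonneg (mq b p), mul_nonneg (sq_nonneg (mq b p)) h4.le]
  · have h1 : ∀ x, (Gc b r p x) ^ 2 = 0 := by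
      intro x
      unfold Gc
      rw [if_neg hp]
      norm_num
    simp only [h1]
    rw [integral_zero]
    exact mq_nonneg b p

lemma Gc_prod (hr : TS b μ r w) {p q : ℕ} (hp : p.Prime) (hpq : p < q) :
    |∫ x, Gc b r p x * Gc b r q x ∂μ| ≤ |CT b p q (w p q)| := by
  by_cases hq : q.Prime
  · have h1 : ∀ x, Gc b r p x * Gc b r q x =
        (fun m : ℕ => (rpi p (w p q * m % b ^ p) - mq b p) * (rpi q m - mq b q)) (r q x) := by
      intro x
      unfold Gc
      rw [if_pos hp, if_pos hq]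
      simp only
      rw [← hr.rel p q hpq.le x]
    simp only [h1]
    have h2 := hr.int q (by omega)
      (fun m : ℕ => (rpi p (w p q * m % b ^ p) - mq b p) * (rpi q m - mq b q))
    rw [h2]
    exact le_rfl
  · have h1 : ∀ x, Gc b r p x * Gc b r q x = 0 := by
      intro x
      unfold Gc
      rw [if_neg hq, mul_zero]
    simp only [h1]
    rw [integral_zero, abs_zero]
    exact abs_nonneg _

/-- **The almost sure law.** -/
theorem law_TS {v : ℕ} (hb : 2 ≤ b) (hv : 1 ≤ v) (hvb : v < b)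
    (hw : ∀ p q, w p q * v ^ (q - p) ≡ 1 [MOD b ^ p]) (hr : TS b μ r w) : ∀ᵐ x ∂μ,
    Tendsto (fun n : ℕ => (cntR (fun p => r p x) n : ℝ) / Real.log n) atTop
      (𝓝 (Real.exp Real.eulerMascheroniConstant / Real.log b)) := by
  obtain ⟨C, hC, P, hP3, hrow⟩ := CT_row hb hv hvb hw
  obtain ⟨K, hK, hmq⟩ := mq_le hb
  obtain ⟨P1, hP1⟩ := eventually_atTop.1 hmq
  have hw0 : ∀ m : ℕ, 0 ≤ Real.log m / m := fun m =>
    div_nonneg (Real.log_natCast_nonneg m) (Nat.cast_nonneg m)
  set P' := P + P1 with hP'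
  have hmain := Pool.Agent.W66S.ae_abs (μ := μ) (G := Gc b r) (Gc_meas hr) (Gc_le hb) (C := C + K)
    (by positivity) (P := P') (by omega)
    (by
      intro p hp
      refine ((Gc_diag hr hb p (by omega)).trans (hP1 p (by omega))).trans ?_
      exact mul_le_mul_of_nonneg_right (by linarith) (hw0 p))
    (by
      intro q hq
      have hq3 : (3 : ℝ) ≤ q := by exact_mod_cast (by omega : 3 ≤ q)
      have hll : 0 ≤ Real.log (Real.log q) := by
        refine Real.log_nonneg ?_
        rw [Real.le_log_iff_exp_le (by linarith)]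
        have := Real.exp_one_lt_d9
        linarith
      calc ∑ p ∈ (Finset.Ico P' q).filter Nat.Prime, |∫ x, Gc b r p x * Gc b r q x ∂μ| ≤
          ∑ p ∈ (Finset.Ico P' q).filter Nat.Prime, |CT b p q (w p q)| := by
            refine Finset.sum_le_sum fun p hp => ?_
            rw [mem_filter, mem_Ico] at hp
            exact Gc_prod hr hp.2 hp.1.2
        _ ≤ ∑ p ∈ (Finset.Ico P q).filter Nat.Prime, |CT b p q (w p q)| := by
            apply Finset.sum_le_sum_of_subset_of_nonneg
            · intro p hp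
              rw [mem_filter, mem_Ico] at hp
              rw [mem_filter, mem_Ico]
              exact ⟨⟨by omega, hp.1.2⟩, hp.2⟩
            · intro _ _ _; exact abs_nonneg _
        _ ≤ C * ((Real.log q / q) * (1 + Real.log (Real.log q))) := hrow q (by omega)
        _ ≤ _ := by
            apply mul_le_mul_of_nonneg_right (by linarith)
            exact mul_nonneg (hw0 q) (by linarith))
  filter_upwards [hmain] with x hx
  set L := Real.exp Real.eulerMascheroniConstant / Real.log b with hL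
  set F : ℕ → ℝ := fun n => ∑ p ∈ (Finset.Icc 1 n).filter Nat.Prime, rpi p (r p x) with hF
  have hFe : ∀ n : ℕ, (cntR (fun p => r p x) n : ℝ) = F n := fun n => cntR_eq (fun p => r p x) n
  simp only [hFe]
  have hFmono : Monotone F := by
    intro m n h
    simp only [hF]
    refine Finset.sum_le_sum_of_subset_of_nonneg ?_ fun p _ _ => rpi_nonneg p _
    exact Finset.filter_subset_filter _ (Finset.Icc_subset_Icc_right h)
  have hF0 : ∀ n, 0 ≤ F n := fun n => Finset.sum_nonneg fun p _ => rpi_nonneg p _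
  refine all_n_mono hFmono hF0 ?_
  have hmean : Tendsto (fun n : ℕ => (∑ p ∈ (Finset.Icc 1 n).filter Nat.Prime, mq b p) /
      Real.log n) atTop (𝓝 L) := cesaro (mq b) _ (mq_tendsto hb)
  have hsq : Tendsto (fun k : ℕ => k ^ 2) atTop atTop := tendsto_pow_atTop two_ne_zero
  have h1 := (hmean.comp tendsto_smp).comp hsq
  have h2 := log_smp_div.comp hsq
  have h3 := h1.mul h2
  rw [mul_one] at h3
  have h4 : Tendsto (fun k : ℕ => ((P' : ℝ) + 1) / ((k ^ 2 : ℕ) : ℝ)) atTop (𝓝 0) :=
    (tendsto_natCast_atTop_atTop.comp hsq).const_div_atTop _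
  have hsub : ∀ n : ℕ, |F n - (∑ p ∈ (Finset.Icc 1 n).filter Nat.Prime, mq b p) -
      ∑ p ∈ (Finset.Icc P' n).filter Nat.Prime, Gc b r p x| ≤ P' + 1 := by
    intro n
    have g1 : F n - (∑ p ∈ (Finset.Icc 1 n).filter Nat.Prime, mq b p) =
        ∑ p ∈ (Finset.Icc 1 n).filter Nat.Prime, Gc b r p x := by
      simp only [hF]
      rw [← Finset.sum_sub_distrib]
      refine Finset.sum_congr rfl fun p hp => ?_
      unfold Gc
      rw [if_pos (mem_filter.1 hp).2]
    have g2 : ∑ p ∈ (Finset.Icc 1 n).filter Nat.Prime, Gc b r p x =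
        ∑ p ∈ (Finset.Icc P' n).filter Nat.Prime, Gc b r p x +
        ∑ p ∈ ((Finset.Icc 1 n).filter Nat.Prime).filter (fun p => p < P'), Gc b r p x := by
      rw [← Finset.sum_filter_add_sum_filter_not ((Finset.Icc 1 n).filter Nat.Prime)
        (fun p => p < P'), add_comm]
      congr 1
      refine Finset.sum_congr ?_ fun _ _ => rfl
      ext p
      simp only [Finset.mem_filter, Finset.mem_Icc, not_lt]
      constructor
      · rintro ⟨⟨⟨h1, h2⟩, h3⟩, h4⟩
        exact ⟨⟨h4, h2⟩, h3⟩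
      · rintro ⟨⟨h1, h2⟩, h3⟩
        exact ⟨⟨⟨h3.one_lt.le, h2⟩, h3⟩, h1⟩
    rw [g1, g2, add_sub_cancel_left]
    refine (Finset.abs_sum_le_sum_abs _ _).trans ?_
    calc ∑ p ∈ ((Finset.Icc 1 n).filter Nat.Prime).filter (fun p => p < P'), |Gc b r p x|
        ≤ ∑ p ∈ ((Finset.Icc 1 n).filter Nat.Prime).filter (fun p => p < P'), (1 : ℝ) :=
          Finset.sum_le_sum fun p _ => Gc_le hb _ _
      _ ≤ ∑ p ∈ Finset.range (P' + 1), (1 : ℝ) := by
          refine Finset.sum_le_sum_of_subset_of_nonneg ?_ fun _ _ _ => zero_le_one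
          intro p hp
          have := (Finset.mem_filter.mp hp).2
          exact Finset.mem_range.mpr (by omega)
      _ = P' + 1 := by simp
  have h5 : Tendsto (fun k : ℕ => (F (smp (k ^ 2)) -
      (∑ p ∈ (Finset.Icc 1 (smp (k ^ 2))).filter Nat.Prime, mq b p) -
      ∑ p ∈ (Finset.Icc P' (smp (k ^ 2))).filter Nat.Prime, Gc b r p x) /
        ((k ^ 2 : ℕ) : ℝ)) atTop (𝓝 0) := by
    refine squeeze_zero_norm (fun k => ?_) h4
    rw [Real.norm_eq_abs, abs_div, abs_of_nonneg (show (0 : ℝ) ≤ ((k ^ 2 : ℕ) : ℝ) from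
      Nat.cast_nonneg _)]
    exact div_le_div_of_nonneg_right (hsub _) (Nat.cast_nonneg _)
  have h6 := (h5.add h3).add hx
  rw [zero_add, add_zero] at h6
  refine h6.congr' ?_
  filter_upwards [eventually_ge_atTop 2] with k hk
  have hk0 : (2 : ℝ) ≤ k := by exact_mod_cast hk
  have hlog : 0 < Real.log (smp (k ^ 2)) := by
    have := log_smp_ge (k ^ 2)
    push_cast at this
    nlinarith
  simp only [Function.comp]
  push_cast
  field_simp
  ring

/-- the law for twisted residues -/
theorem law_tw {v : ℕ} (hb : 2 ≤ b) (hv : 1 ≤ v) (hvb : v < b) (hvc : v.Coprime b)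
    (hr : Low b μ r) : ∀ᵐ x ∂μ,
    Tendsto (fun n : ℕ => (cntR (fun p => tw b v r p x) n : ℝ) / Real.log n) atTop
      (𝓝 (Real.exp Real.eulerMascheroniConstant / Real.log b)) :=
  law_TS hb hv hvb (w := fun p q => iv b v p (q - p)) (fun p q => iv_spec hb hvc p (q - p))
    (tw_TS hb hvc hr fun p q => iv_spec hb hvc p (q - p))

end law

section

variable {Ω : Type*} [MeasurableSpace Ω] {μ : Measure Ω} [IsFiniteMeasure μ] {b : ℕ}
  {s : ℕ → Ω → ℕ}

/-- the law conditionally on the first digit being prime to `b` -/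
theorem law_all_tw {v : ℕ} (hb : 2 ≤ b) (hv : 1 ≤ v) (hvb : v < b) (hvc : v.Coprime b)
    (hs : Full b μ s) : ∀ᵐ x ∂μ, (s 1 x).Coprime b →
    Tendsto (fun n : ℕ => (cntR (fun p => tw b v s p x) n : ℝ) / Real.log n) atTop
      (𝓝 (Real.exp Real.eulerMascheroniConstant / Real.log b)) := by
  classical
  rcases eq_or_ne (μ Set.univ) 0 with h0 | h0
  · rw [Measure.measure_univ_eq_zero] at h0
    rw [h0]
    simp
  have hc : 0 < μ.real Set.univ := by
    rw [measureReal_def]
    exact ENNReal.toReal_pos h0 (measure_ne_top _ _)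
  set A : Set Ω := {x | (s 1 x).Coprime b} with hA
  have hAm : MeasurableSet A := (hs.meas 1) (MeasurableSet.of_discrete (s := {m : ℕ | m.Coprime b}))
  have hb0 : (0 : ℝ) < b := by exact_mod_cast (by omega : 0 < b)
  have hφ : (0 : ℝ) < b.totient := by exact_mod_cast Nat.totient_pos.2 (by omega)
  have hAr : μ.real A = μ.real Set.univ * (b.totient : ℝ) / b := by
    have e : A = ⋃ a ∈ (UU b 1), {x | s 1 x = a} := by
      ext x
      simp only [hA, Set.mem_setOf_eq, Set.mem_iUnion, exists_prop]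
      constructor
      · intro h
        exact ⟨s 1 x, mem_UU.2 ⟨hs.lt hb 1 x, h⟩, rfl⟩
      · rintro ⟨a, ha, h⟩
        rw [h]
        exact (mem_UU.1 ha).2
    rw [e, measureReal_biUnion_finset]
    · have h1 : ∀ a ∈ UU b 1, μ.real {x | s 1 x = a} = μ.real Set.univ / (b : ℝ) ^ 1 := by
        intro a ha
        exact hs.unif 1 a (mem_UU.1 ha).1
      rw [Finset.sum_congr rfl h1, Finset.sum_const, nsmul_eq_mul, card_UU hb le_rfl, pow_one, pow_one]
      ring
    · intro a _ a' _ haa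
      rw [Function.onFun, Set.disjoint_left]
      intro x hx hx'
      exact haa (hx.symm.trans hx')
    · intro a _
      exact (hs.meas 1) (measurableSet_singleton a)
  have hApos : 0 < μ.real A := by rw [hAr]; positivity
  have hA0 : μ A ≠ 0 := by
    intro h
    rw [measureReal_def, h] at hApos
    simp at hApos
  haveI : IsProbabilityMeasure (ProbabilityTheory.cond μ A) :=
    ProbabilityTheory.cond_isProbabilityMeasure hA0
  have hlow : Low b (ProbabilityTheory.cond μ A) s := by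
    refine ⟨hs.meas, hs.compat, fun n hn a ha hac => ?_⟩
    have hsub : {x | s n x = a} ⊆ A := by
      intro x hx
      simp only [hA, Set.mem_setOf_eq]
      rw [← hs.mod_b hb x hn, Set.mem_setOf_eq.mp hx]
      rw [Nat.Coprime, (Nat.mod_modEq a b).gcd_eq]
      exact hac
    have h1 : (ProbabilityTheory.cond μ A).real {x | s n x = a} =
        (μ.real A)⁻¹ * μ.real {x | s n x = a} := by
      rw [measureReal_def, ProbabilityTheory.cond_apply hAm, Set.inter_eq_self_of_subset_right hsub,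
        ENNReal.toReal_mul, ENNReal.toReal_inv]
      rfl
    rw [h1, hs.unif n a ha, hAr, tot_pow hb hn]
    field_simp
  have h := law_tw hb hv hvb hvc hlow
  have h2 : ∀ᵐ x ∂(μ.restrict A),
      Tendsto (fun n : ℕ => (cntR (fun p => tw b v s p x) n : ℝ) / Real.log n) atTop
      (𝓝 (Real.exp Real.eulerMascheroniConstant / Real.log b)) := by
    unfold ProbabilityTheory.cond at h
    rwa [Measure.ae_ennreal_smul_measure_iff] at h
    exact ENNReal.inv_ne_zero.2 (measure_ne_top _ _)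
  rwa [ae_restrict_iff' hAm] at h2

end

end Pool.Agent.K3h13.AD
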