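import Pool.Agent.K3h13.AD.NT

set_option autoImplicit false

/-!
# Signs and special digits
-/

open Filter Topology Finset MeasureTheory
open scoped Real

namespace Pool.Agent.K3h13.AD

open Pool.Agent.W66
open Pool.Agent.W66L
open Pool.Agent.H305R2 (roughPart log_nat_tendsto)

section neg

variable {Ω : Type*} [MeasurableSpace Ω] {μ : Measure Ω} [IsFiniteMeasure μ] {b : ℕ}
  {s : ℕ → Ω → ℕ}

/-- the residues of the negative -/
def ng (b : ℕ) (s : ℕ → Ω → ℕ) (n : ℕ) (x : Ω) : ℕ := (b ^ n - s n x) % b ^ n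

lemma neg_iff {N s a : ℕ} (hs : s < N) (ha : a < N) : (N - s) % N = a ↔ s = (N - a) % N := by
  rcases Nat.eq_zero_or_pos s with h | h
  · rcases Nat.eq_zero_or_pos a with h' | h'
    · subst h; subst h'; simp
    · subst h
      rw [Nat.sub_zero, Nat.mod_self, Nat.mod_eq_of_lt (by omega : N - a < N)]
      omega
  · rcases Nat.eq_zero_or_pos a with h' | h'
    · subst h'
      rw [Nat.sub_zero, Nat.mod_self, Nat.mod_eq_of_lt (by omega : N - s < N)]
      omega
    · rw [Nat.mod_eq_of_lt (by omega : N - a < N), Nat.mod_eq_of_lt (by omega : N - s < N)]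
      omega

omit [MeasurableSpace Ω] in
lemma ng_add (hs : ∀ n x, s n x ≤ b ^ n) (n : ℕ) (x : Ω) : ng b s n x + s n x ≡ 0 [MOD b ^ n] := by
  unfold ng
  have h1 : (b ^ n - s n x) % b ^ n + s n x ≡ b ^ n - s n x + s n x [MOD b ^ n] :=
    (Nat.mod_modEq _ _).add_right _
  rw [Nat.sub_add_cancel (hs n x)] at h1
  exact h1.trans (by simp [Nat.ModEq])

lemma Full_ng (hb : 2 ≤ b) (hs : Full b μ s) : Full b μ (ng b s) := by
  have hlt : ∀ n x, s n x ≤ b ^ n := fun n x => (hs.lt hb n x).le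
  refine ⟨fun n => ?_, fun n x => ?_, fun n a ha => ?_⟩
  · exact (measurable_from_nat (f := fun m => (b ^ n - m) % b ^ n)).comp (hs.meas n)
  · have h1 : ng b s (n + 1) x + s (n + 1) x ≡ 0 [MOD b ^ n] :=
      (ng_add hlt (n + 1) x).of_dvd (pow_dvd_pow b (Nat.le_succ n))
    have h2 : ng b s n x + s n x ≡ 0 [MOD b ^ n] := ng_add hlt n x
    have h3 : s (n + 1) x ≡ s n x [MOD b ^ n] := by
      have := hs.compat n x
      have h4 : s (n + 1) x ≡ s (n + 1) x % b ^ n [MOD b ^ n] := (Nat.mod_modEq _ _).symm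
      rwa [this] at h4
    have h4 : ng b s (n + 1) x ≡ ng b s n x [MOD b ^ n] := by
      have h5 : ng b s (n + 1) x + s (n + 1) x ≡ ng b s n x + s n x [MOD b ^ n] :=
        h1.trans h2.symm
      exact Nat.ModEq.add_right_cancel h3 h5
    have h5 : ng b s (n + 1) x % b ^ n = ng b s n x % b ^ n := h4
    rw [h5]
    unfold ng
    rw [Nat.mod_mod]
  · have hN : 0 < b ^ n := by positivity
    have e : {x | ng b s n x = a} = {x | s n x = (b ^ n - a) % b ^ n} := by
      ext x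
      exact neg_iff (hs.lt hb n x) ha
    rw [e]
    exact hs.unif n _ (Nat.mod_lt _ hN)

lemma ng_coprime (hb : 2 ≤ b) (hs : Full b μ s) (x : Ω) (h : (s 1 x).Coprime b) :
    (ng b s 1 x).Coprime b := by
  have hlt : ∀ n x, s n x ≤ b ^ n := fun n x => (hs.lt hb n x).le
  have h1 := ng_add (b := b) hlt 1 x
  rw [pow_one] at h1
  have h2 : b ∣ ng b s 1 x + s 1 x := (Nat.modEq_zero_iff_dvd).1 h1
  have h3 : Nat.gcd (ng b s 1 x) b ∣ s 1 x := by
    have g1 : Nat.gcd (ng b s 1 x) b ∣ ng b s 1 x + s 1 x := (Nat.gcd_dvd_right _ _).trans h2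
    exact (Nat.dvd_add_right (Nat.gcd_dvd_left _ _)).1 g1
  have h4 : Nat.gcd (ng b s 1 x) b ∣ 1 := by
    have := Nat.dvd_gcd h3 (Nat.gcd_dvd_right (ng b s 1 x) b)
    rwa [h] at this
  exact Nat.dvd_one.1 h4

end neg

/-- the residue of `c ^ p` times the number `m` modulo `b ^ p` -/
def rs (b : ℕ) (c : ℤ) (m p : ℕ) : ℕ := ((c ^ p * m) % (b : ℤ) ^ p).toNat

lemma rs_cast {b : ℕ} (hb : 0 < b) (c : ℤ) (m p : ℕ) :
    (rs b c m p : ℤ) = (c ^ p * m) % (b : ℤ) ^ p := by
  unfold rs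
  have : (0 : ℤ) < (b : ℤ) ^ p := by positivity
  rw [Int.toNat_of_nonneg (Int.emod_nonneg _ this.ne')]

lemma rs_pos {Ω : Type*} {b : ℕ} (hb : 0 < b) (v : ℕ) (s : ℕ → Ω → ℕ) (p : ℕ) (x : Ω) :
    rs b (v : ℤ) (s p x) p = tw b v s p x := by
  have h := rs_cast hb (v : ℤ) (s p x) p
  have h2 : ((v : ℤ) ^ p * (s p x : ℤ)) % (b : ℤ) ^ p = ((v ^ p * s p x % b ^ p : ℕ) : ℤ) := by
    push_cast; rfl
  rw [h2] at h
  exact_mod_cast h

lemma rs_neg {Ω : Type*} {b : ℕ} (hb : 0 < b) (v : ℕ) (s : ℕ → Ω → ℕ) (hs : ∀ n x, s n x ≤ b ^ n)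
    {p : ℕ} (hp : Odd p) (x : Ω) : rs b (-(v : ℤ)) (s p x) p = tw b v (ng b s) p x := by
  have h := rs_cast hb (-(v : ℤ)) (s p x) p
  have h2 : ((-(v : ℤ)) ^ p * (s p x : ℤ)) % (b : ℤ) ^ p =
      ((v ^ p * ng b s p x % b ^ p : ℕ) : ℤ) := by
    push_cast
    rw [hp.neg_pow]
    refine Int.ModEq.symm ?_
    have h1 : ((ng b s p x : ℕ) : ℤ) + ((s p x : ℕ) : ℤ) ≡ 0 [ZMOD (b : ℤ) ^ p] := by
      have := ng_add (b := b) hs p x
      have h3 := (Int.natCast_modEq_iff.2 this)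
      push_cast at h3
      exact h3
    have h4 := h1.mul_left ((v : ℤ) ^ p)
    have h5 := h4.sub_right ((v : ℤ) ^ p * ((s p x : ℕ) : ℤ))
    have e1 : (v : ℤ) ^ p * (((ng b s p x : ℕ) : ℤ) + ((s p x : ℕ) : ℤ)) -
        (v : ℤ) ^ p * ((s p x : ℕ) : ℤ) = (v : ℤ) ^ p * ((ng b s p x : ℕ) : ℤ) := by ring
    have e2 : (v : ℤ) ^ p * 0 - (v : ℤ) ^ p * ((s p x : ℕ) : ℤ) =
        -(v : ℤ) ^ p * ((s p x : ℕ) : ℤ) := by ring
    rw [e1, e2] at h5
    exact h5
  rw [h2] at h
  exact_mod_cast h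

lemma transfer {L : ℝ} {F H : ℕ → ℝ} {P : ℝ} (h1 : ∀ n, F n ≤ H n + P) (h2 : ∀ n, H n ≤ F n + P)
    (h : Tendsto (fun n : ℕ => F n / Real.log n) atTop (𝓝 L)) :
    Tendsto (fun n : ℕ => H n / Real.log n) atTop (𝓝 L) := by
  have h3 : Tendsto (fun n : ℕ => P / Real.log n) atTop (𝓝 0) := log_nat_tendsto.const_div_atTop _
  have h4 : Tendsto (fun n : ℕ => H n / Real.log n - F n / Real.log n) atTop (𝓝 0) := by
    refine squeeze_zero_norm' ?_ h3
    filter_upwards [log_nat_tendsto.eventually_gt_atTop 0] with n hn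
    rw [← sub_div, Real.norm_eq_abs, abs_div, abs_of_pos hn]
    refine div_le_div_of_nonneg_right ?_ hn.le
    rw [abs_le]
    constructor <;> linarith [h1 n, h2 n]
  have h5 := h4.add h
  rw [zero_add] at h5
  refine h5.congr fun n => ?_
  ring

lemma cntR_le_of {s t : ℕ → ℕ} (h : ∀ p, 2 < p → p.Prime → s p = t p) (n : ℕ) :
    (cntR s n : ℝ) ≤ cntR t n + (3 : ℕ) := by
  have h1 : (Finset.Icc 1 n).filter (fun p => p.Prime ∧ (roughPart p (s p)).Prime) ⊆
      (Finset.Icc 1 n).filter (fun p => p.Prime ∧ (roughPart p (t p)).Prime) ∪ Finset.range 3 := by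
    intro p hp
    rw [Finset.mem_filter] at hp
    rw [Finset.mem_union, Finset.mem_filter]
    by_cases hD : 2 < p
    · rw [← h p hD hp.2.1]
      exact Or.inl ⟨hp.1, hp.2⟩
    · exact Or.inr (Finset.mem_range.2 (by omega))
  have h2 := (Finset.card_le_card h1).trans (Finset.card_union_le _ _)
  rw [Finset.card_range] at h2
  unfold cntR
  exact_mod_cast h2

/-- the law for all signs -/
theorem law_int {Ω : Type*} [MeasurableSpace Ω] {μ : Measure Ω} [IsFiniteMeasure μ] {b : ℕ}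
    {s : ℕ → Ω → ℕ} (hb : 2 ≤ b) (hs : Full b μ s) (c : ℤ) (hc : |c| < b)
    (hcb : IsCoprime (b : ℤ) c) : ∀ᵐ x ∂μ, (s 1 x).Coprime b →
    Tendsto (fun n : ℕ => (cntR (fun p => rs b c (s p x) p) n : ℝ) / Real.log n) atTop
      (𝓝 (Real.exp Real.eulerMascheroniConstant / Real.log b)) := by
  obtain ⟨v, hv⟩ := Int.eq_nat_or_neg c
  have hv1 : 1 ≤ v := by
    rcases Nat.eq_zero_or_pos v with h | h
    · exfalso
      subst h
      have : c = 0 := by rcases hv with h | h <;> simpa using h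
      rw [this, isCoprime_zero_right] at hcb
      have := Int.isUnit_iff_natAbs_eq.1 hcb
      simp at this
      omega
    · exact h
  have hvc : v.Coprime b := by
    have h1 := Int.isCoprime_iff_gcd_eq_one.1 hcb
    rw [Nat.coprime_comm]
    rcases hv with h | h
    · rw [h] at h1
      exact h1
    · rw [h, Int.gcd_neg] at h1
      exact h1
  have hvb : v < b := by
    have : |c| = v := by
      rcases hv with h | h
      · rw [h]; simp
      · rw [h]; simp
    rw [this] at hc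
    exact_mod_cast hc
  have hlt : ∀ n x, s n x ≤ b ^ n := fun n x => (hs.lt hb n x).le
  rcases hv with hv | hv
  · filter_upwards [law_all_tw hb hv1 hvb hvc hs] with x hx h1
    refine (hx h1).congr fun n => ?_
    have : (fun p => rs b c (s p x) p) = fun p => tw b v s p x := by
      funext p
      rw [hv]
      exact rs_pos (by omega) v s p x
    rw [this]
  · filter_upwards [law_all_tw hb hv1 hvb hvc (Full_ng hb hs)] with x hx h1
    have h2 := hx (ng_coprime hb hs x h1)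
    have key : ∀ p, 2 < p → p.Prime → tw b v (ng b s) p x = rs b c (s p x) p := by
      intro p hp2 hp
      rw [hv]
      exact (rs_neg (by omega) v s hlt (hp.odd_of_ne_two (by omega)) x).symm
    exact transfer (P := ((3 : ℕ) : ℝ)) (fun n => cntR_le_of key n)
      (fun n => cntR_le_of (fun p h3 h4 => (key p h3 h4).symm) n) h2

end Pool.Agent.K3h13.AD
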