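import Pool.Agent.K3h13.AD.NU

set_option autoImplicit false

/-!
# Special digits
-/

open Filter Topology Finset MeasureTheory
open scoped Real

namespace Pool.Agent.K3h13.AD

open Pool.Agent.W66
open Pool.Agent.W66L
open Pool.Agent.H305R2 (roughPart log_nat_tendsto)

lemma cancel_mod {a : ℕ} {c : ℤ} (hc : IsCoprime (a : ℤ) c) {n : ℕ} {x y : ℤ}
    (h : (a : ℤ) ^ n ∣ c * x - c * y) : (a : ℤ) ^ n ∣ x - y := by
  rw [← mul_sub] at h
  exact (hc.pow_left).dvd_of_dvd_mul_left h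

/-- digit sequences solving `c δ + 1 = 0` -/
lemma digits_unique {a : ℕ} {c : ℤ} (hc : IsCoprime (a : ℤ) c) {d e : ℕ → Fin a}
    (hd : ∀ n, (a : ℤ) ^ n ∣ c * dsum a n d + 1) (he : ∀ n, (a : ℤ) ^ n ∣ c * dsum a n e + 1) :
    d = e := by
  have h : ∀ n, dsum a n d = dsum a n e := by
    intro n
    have h1 : (a : ℤ) ^ n ∣ c * dsum a n d - c * dsum a n e := by
      have := dvd_sub (hd n) (he n)
      have e1 : c * (dsum a n d : ℤ) + 1 - (c * (dsum a n e : ℤ) + 1) =
          c * (dsum a n d : ℤ) - c * (dsum a n e : ℤ) := by ring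
      rwa [e1] at this
    have h2 := cancel_mod hc h1
    have h3 : dsum a n d ≡ dsum a n e [MOD a ^ n] := by
      rw [Nat.modEq_iff_dvd, ← dvd_neg]
      push_cast
      rw [neg_sub]
      exact h2
    have h4 : dsum a n d % a ^ n = dsum a n e % a ^ n := h3
    rwa [Nat.mod_eq_of_lt (dsum_lt a n d), Nat.mod_eq_of_lt (dsum_lt a n e)] at h4
  funext i
  exact dsum_inj a (i + 1) d e (h (i + 1)) i (Nat.lt_succ_self i)

lemma digits_exist {a : ℕ} (ha : 1 < a) {c : ℤ} (hc : IsCoprime (a : ℤ) c) :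
    ∃ d : ℕ → Fin a, ∀ n, (a : ℤ) ^ n ∣ c * dsum a n d + 1 := by
  -- the residues
  have hex : ∀ n, ∃ x : ℕ, x < a ^ n ∧ (a : ℤ) ^ n ∣ c * x + 1 := by
    intro n
    obtain ⟨u, v, huv⟩ := hc.pow_left (m := n)
    have hN : (0 : ℤ) < (a : ℤ) ^ n := by positivity
    refine ⟨((-v) % (a : ℤ) ^ n).toNat, ?_, ?_⟩
    · have h1 := Int.emod_lt_of_pos (-v) hN
      have h2 := Int.emod_nonneg (-v) hN.ne'
      zify
      rw [Int.toNat_of_nonneg h2]
      exact h1
    · have h2 := Int.emod_nonneg (-v) hN.ne'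
      rw [Int.toNat_of_nonneg h2]
      have h3 := Int.emod_add_mul_ediv (-v) ((a : ℤ) ^ n)
      refine ⟨u - c * ((-v) / (a : ℤ) ^ n), ?_⟩
      have h4 : (-v) % (a : ℤ) ^ n = -v - (a : ℤ) ^ n * ((-v) / (a : ℤ) ^ n) := by linarith
      rw [h4]
      linear_combination -huv
  choose x hx1 hx2 using hex
  have hcomp : ∀ n, x (n + 1) % a ^ n = x n := by
    intro n
    have h1 : (a : ℤ) ^ n ∣ c * (x (n + 1) : ℤ) - c * (x n : ℤ) := by
      have h2 := (pow_dvd_pow (a : ℤ) (Nat.le_succ n)).trans (hx2 (n + 1))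
      have h3 := dvd_sub h2 (hx2 n)
      have e1 : c * (x (n + 1) : ℤ) + 1 - (c * (x n : ℤ) + 1) = c * (x (n + 1) : ℤ) - c * (x n : ℤ) := by
        ring
      rwa [e1] at h3
    have h2 := cancel_mod hc h1
    have h3 : x (n + 1) ≡ x n [MOD a ^ n] := by
      rw [Nat.modEq_iff_dvd, ← dvd_neg]
      push_cast
      rw [neg_sub]
      exact h2
    have h4 : x (n + 1) % a ^ n = x n % a ^ n := h3
    rwa [Nat.mod_eq_of_lt (hx1 n)] at h4
  have hlt : ∀ n, x (n + 1) / a ^ n < a := by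
    intro n
    rw [Nat.div_lt_iff_lt_mul (by positivity)]
    have := hx1 (n + 1)
    rwa [pow_succ'] at this
  refine ⟨fun n => ⟨x (n + 1) / a ^ n, hlt n⟩, ?_⟩
  have hds : ∀ n, dsum a n (fun n => ⟨x (n + 1) / a ^ n, hlt n⟩) = x n := by
    intro n
    induction n with
    | zero =>
      have := hx1 0
      unfold dsum
      simp at this ⊢
      omega
    | succ n ih =>
      rw [dsum_succ, ih]
      simp only
      have h1 := Nat.mod_add_div (x (n + 1)) (a ^ n)
      rw [hcomp n] at h1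
      rw [mul_comm]
      exact h1
  intro n
  rw [hds n]
  exact hx2 n

/-- the value at the special digits -/
lemma special_value {a : ℕ} {b : ℤ} (ha : 1 < a) (hb : |b| < a) (hab : IsCoprime (a : ℤ) b) {m p : ℕ}
    (hm : (a : ℤ) ^ p ∣ ((a : ℤ) - b) * m + 1) :
    (rs a b m p : ℤ) = ∑ i ∈ Finset.range p, (a : ℤ) ^ i * b ^ (p - 1 - i) := by
  set M : ℤ := ∑ i ∈ Finset.range p, (a : ℤ) ^ i * b ^ (p - 1 - i) with hM
  have hgeom : M * ((a : ℤ) - b) = (a : ℤ) ^ p - b ^ p := (Commute.all (a : ℤ) b).geom_sum₂_mul p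
  have hN : (0 : ℤ) < (a : ℤ) ^ p := by positivity
  have hlt := abs_lt.1 hb
  have hc : 0 < (a : ℤ) - b := by linarith
  have hcop : IsCoprime (a : ℤ) ((a : ℤ) - b) := by
    have h1 : IsCoprime (a : ℤ) (-b) := hab.neg_right
    have h2 := h1.add_mul_left_right 1
    have e : -b + (a : ℤ) * 1 = (a : ℤ) - b := by ring
    rwa [e] at h2
  rw [rs_cast (by omega)]
  have hdiv : (a : ℤ) ^ p ∣ b ^ p * m - M := by
    refine cancel_mod hcop ?_
    have e : ((a : ℤ) - b) * (b ^ p * m) - ((a : ℤ) - b) * M =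
        b ^ p * (((a : ℤ) - b) * m + 1) - (a : ℤ) ^ p := by linear_combination -hgeom
    rw [e]
    exact dvd_sub (dvd_mul_of_dvd_right hm _) dvd_rfl
  rcases Nat.eq_zero_or_pos p with hp | hp
  · subst hp
    rw [hM]
    simp
  have hbp : |b ^ p| < (a : ℤ) ^ p := by
    rw [abs_pow]
    exact pow_lt_pow_left₀ hb (abs_nonneg b) (by omega)
  obtain ⟨hb1, hb2⟩ := abs_lt.1 hbp
  have hM0 : 0 ≤ M := by
    by_contra hcon
    push Not at hcon
    have : M * ((a : ℤ) - b) < 0 := mul_neg_of_neg_of_pos hcon hc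
    linarith
  have hMlt : M < (a : ℤ) ^ p := by
    rcases le_or_gt 0 b with h0 | h0
    · have h1 : M ≤ M * ((a : ℤ) - b) := by nlinarith
      have hb0 : b ≠ 0 := by
        rintro rfl
        rw [isCoprime_zero_right] at hab
        have := Int.isUnit_iff_natAbs_eq.1 hab
        simp at this
        omega
      have h2 : 0 < b ^ p := pow_pos (lt_of_le_of_ne h0 (Ne.symm hb0)) p
      linarith
    · have h1 : M * 2 ≤ M * ((a : ℤ) - b) := mul_le_mul_of_nonneg_left (by omega) hM0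
      linarith
  have h1 : (b ^ p * (m : ℤ)) % (a : ℤ) ^ p = M % (a : ℤ) ^ p :=
    Int.ModEq.symm ((Int.modEq_iff_dvd).2 hdiv)
  rw [h1, Int.emod_eq_of_lt hM0 hMlt]

end Pool.Agent.K3h13.AD
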