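import Pool.Agent.W66.LO
import Pool.Agent.TH888.R.Mean

set_option autoImplicit false

/-!
# The mean over the reduced residues with an error term
-/

open Filter Topology
open scoped Real

namespace Pool.Agent.K3h13.AD

open Pool.Agent.W66
open Pool.Agent.W66L
open Pool.Agent.H305R2 (roughPart SM SM_pos SMz mem_SMz ZZ VV sum_rough_eq sum_le_VV
  tail_le ZZ_le_exp ZZ_nonneg VV_nonneg VV_tendsto log_nat_tendsto)
open Pool.Agent.TH888.R (ZZ_rate VV_rate)

/-- the prime number theorem with error term -/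
lemma pi_rate : ∃ C : ℝ, 0 < C ∧ ∀ᶠ x : ℝ in atTop,
    |(Nat.primeCounting ⌊x⌋₊ : ℝ) * Real.log x / x - 1| ≤ C / Real.log x := by
  obtain ⟨C, hC, h⟩ := Pool.Agent.H442R2.EHI.PntErrAux.thetaU 1
  obtain ⟨D, hD⟩ := Chebyshev.primeCounting_sub_theta_div_log_isBigO.bound
  refine ⟨2 * C + 2 + |D|, by positivity, ?_⟩
  filter_upwards [hD, eventually_ge_atTop 4, Real.tendsto_log_atTop.eventually_ge_atTop 1]
    with x hx h4 hl1
  have hx0 : 0 < x := by linarith
  have hl0 : 0 < Real.log x := by linarith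
  rw [Real.norm_eq_abs, Real.norm_eq_abs, abs_of_nonneg (show 0 ≤ x / Real.log x ^ 2 by positivity)]
    at hx
  set A := ⌊x⌋₊ with hA
  have hA4 : 4 ≤ A := Nat.le_floor (by exact_mod_cast h4)
  have hAx : (A : ℝ) ≤ x := Nat.floor_le hx0.le
  have hxA : x < A + 1 := Nat.lt_floor_add_one x
  have hAr : (4 : ℝ) ≤ A := by exact_mod_cast hA4
  have hlA : Real.log x / 2 ≤ Real.log A := by
    have h1 : x ≤ (A : ℝ) ^ 2 := by nlinarith
    have h2 := Real.log_le_log hx0 h1
    rw [Real.log_pow] at h2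
    push_cast at h2
    linarith
  have hθ := h A (by omega)
  rw [pow_one] at hθ
  have hθx : Chebyshev.theta x = Chebyshev.theta (A : ℝ) := by
    rw [Chebyshev.theta_eq_theta_coe_floor x]
  have h1 : |Chebyshev.theta x - x| ≤ (2 * C + 2) * (x / Real.log x) := by
    rw [hθx]
    have e1 : |Chebyshev.theta (A : ℝ) - x| ≤ |Chebyshev.theta (A : ℝ) - A| + 1 := by
      have := abs_sub_le (Chebyshev.theta (A : ℝ)) A x
      have h5 : |(A : ℝ) - x| ≤ 1 := by rw [abs_le]; constructor <;> linarith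
      linarith
    have e2 : C * ((A : ℝ) / Real.log A) ≤ 2 * C * (x / Real.log x) := by
      calc C * ((A : ℝ) / Real.log A) ≤ C * (x / (Real.log x / 2)) := by gcongr
        _ = _ := by field_simp
    have e3 : 1 ≤ x / Real.log x := by
      rw [le_div_iff₀ hl0, one_mul]
      have := Real.log_le_sub_one_of_pos hx0
      linarith
    linarith
  have e : (Nat.primeCounting A : ℝ) * Real.log x / x - 1 =
      ((Nat.primeCounting A : ℝ) - Chebyshev.theta x / Real.log x) * (Real.log x / x) +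
        (Chebyshev.theta x - x) / x := by
    field_simp
    ring
  rw [e]
  refine (abs_add_le _ _).trans ?_
  rw [abs_mul, abs_of_nonneg (show 0 ≤ Real.log x / x by positivity), abs_div _ x, abs_of_pos hx0]
  have h2 : |(Nat.primeCounting A : ℝ) - Chebyshev.theta x / Real.log x| * (Real.log x / x) ≤
      |D| / Real.log x := by
    calc _ ≤ (|D| * (x / Real.log x ^ 2)) * (Real.log x / x) := by
          apply mul_le_mul_of_nonneg_right _ (by positivity)
          exact hx.trans (mul_le_mul_of_nonneg_right (le_abs_self D) (by positivity))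
      _ = _ := by field_simp
  have h3 : |Chebyshev.theta x - x| / x ≤ (2 * C + 2) / Real.log x := by
    rw [div_le_iff₀ hx0]
    refine h1.trans (le_of_eq ?_)
    ring
  calc _ ≤ |D| / Real.log x + (2 * C + 2) / Real.log x := add_le_add h2 h3
    _ = _ := by ring

lemma AA_up {b q : ℕ} (hb : 2 ≤ b) (h2 : b ≤ q) {δ : ℝ} (hδ : 0 < δ) (hδ1 : δ < 1 / 4)
    (hX3 : 3 ≤ δ * (Real.log b * q)) (hpi : ∀ x : ℝ, Real.exp (Real.log b * q / 2) ≤ x →
      (Nat.primeCounting ⌊x⌋₊ : ℝ) * Real.log x / x ≤ 1 + δ) :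
    AA b q ≤ (b : ℝ) ^ q * ((1 + δ) / ((1 - 2 * δ) * (Real.log b * q)) * VB b q +
      Real.exp (-(δ * (Real.log b * q) / 2)) * ZZ q) := by
  set lb := Real.log b with hlb
  have hlb0 : 0 < lb := Real.log_pos (by exact_mod_cast hb)
  have hq0 : (0 : ℝ) < q := by exact_mod_cast (by omega : 0 < q)
  have hlq : 0 < lb * q := by positivity
  set X := b ^ q - 1 with hX
  have hbr : (2 : ℝ) ≤ b := by exact_mod_cast hb
  have hbq : (b : ℝ) ^ q = Real.exp (lb * q) := by
    rw [mul_comm, Real.exp_nat_mul, hlb, Real.exp_log (by linarith)]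
  have hXr : (X : ℝ) = (b : ℝ) ^ q - 1 := by
    rw [hX, Nat.cast_sub (Nat.one_le_pow _ _ (by omega))]
    push_cast
    rfl
  have hXle : (X : ℝ) ≤ (b : ℝ) ^ q := by linarith
  have hXnn : (0 : ℝ) ≤ X := Nat.cast_nonneg _
  set S := Real.exp (δ * (lb * q)) with hS
  have hS0 : 0 < S := Real.exp_pos _
  have hS1 : 1 ≤ S := Real.one_le_exp (by linarith)
  rw [AA_eq hb h2, ← Finset.sum_filter_add_sum_filter_not (SMz q (X : ℝ)) (fun s : ℕ => (s : ℝ) ≤ S),
    mul_add]
  have hF : ∀ n ∈ (SMz q (X : ℝ)).filter (fun s : ℕ => (s : ℝ) ≤ S), n ∈ SM q := by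
    intro n hn
    rw [Finset.mem_filter, mem_SMz hXnn] at hn
    exact hn.1.1
  apply add_le_add
  · have hterm : ∀ s ∈ (SMz q (X : ℝ)).filter (fun s : ℕ => (s : ℝ) ≤ S),
        (if s.Coprime b then (1 : ℝ) else 0) *
          (((Finset.Ioc 0 (X / s)).filter (fun l => l.Prime ∧ q < l)).card : ℝ) ≤
        (b : ℝ) ^ q * ((1 + δ) / ((1 - 2 * δ) * (lb * q))) * copHom b s := by
      intro s hs
      rw [Finset.mem_filter, mem_SMz hXnn] at hs
      obtain ⟨⟨hs1, _⟩, hsS⟩ := hs
      have hs0 : 0 < s := SM_pos hs1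
      have hs0' : (0 : ℝ) < s := by exact_mod_cast hs0
      have hs1' : (1 : ℝ) ≤ s := by exact_mod_cast hs0
      rw [copHom_apply]
      by_cases hc : s.Coprime b
      · rw [if_pos hc, if_pos hc, one_mul]
        refine (card_inner_le _ _).trans ?_
        set x := (X : ℝ) / s with hx
        have hfl : X / s = ⌊x⌋₊ := by rw [hx, Nat.floor_div_eq_div]
        have hxlow : Real.exp ((1 - 2 * δ) * (lb * q)) ≤ x := by
          rw [hx, le_div_iff₀ hs0', hXr, hbq]
          have e1 : Real.exp (lb * q) = Real.exp ((1 - 2 * δ) * (lb * q)) *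
              (Real.exp (δ * (lb * q)) * Real.exp (δ * (lb * q))) := by
            rw [← Real.exp_add, ← Real.exp_add]; ring_nf
          rw [e1, ← hS]
          have e2 : 1 ≤ Real.exp ((1 - 2 * δ) * (lb * q)) := Real.one_le_exp (by
            apply mul_nonneg (by linarith) hlq.le)
          have e3 : 4 ≤ S := by
            have := Real.add_one_le_exp (δ * (lb * q))
            linarith
          have e4 : Real.exp ((1 - 2 * δ) * (lb * q)) * s ≤ Real.exp ((1 - 2 * δ) * (lb * q)) * S :=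
            mul_le_mul_of_nonneg_left hsS (Real.exp_pos _).le
          have e5 : 1 ≤ Real.exp ((1 - 2 * δ) * (lb * q)) * S := by nlinarith
          have e6 : Real.exp ((1 - 2 * δ) * (lb * q)) * S * 4 ≤
              Real.exp ((1 - 2 * δ) * (lb * q)) * S * S :=
            mul_le_mul_of_nonneg_left e3 (by positivity)
          nlinarith
        have hx0' : 0 < x := lt_of_lt_of_le (Real.exp_pos _) hxlow
        have hxx0 : Real.exp (lb * q / 2) ≤ x := by
          refine le_trans (Real.exp_le_exp.2 ?_) hxlow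
          nlinarith
        have hlogx : (1 - 2 * δ) * (lb * q) ≤ Real.log x := by
          rw [Real.le_log_iff_exp_le hx0']; exact hxlow
        have hpos : 0 < (1 - 2 * δ) * (lb * q) := mul_pos (by linarith) hlq
        have h3 := hpi x hxx0
        rw [div_le_iff₀ hx0'] at h3
        have h4 : (Nat.primeCounting (X / s) : ℝ) ≤ (1 + δ) * x / ((1 - 2 * δ) * (lb * q)) := by
          rw [hfl, le_div_iff₀ hpos]
          have : (Nat.primeCounting ⌊x⌋₊ : ℝ) * ((1 - 2 * δ) * (lb * q)) ≤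
            (Nat.primeCounting ⌊x⌋₊ : ℝ) * Real.log x := mul_le_mul_of_nonneg_left hlogx (by positivity)
          linarith
        refine h4.trans ?_
        have h5 : x ≤ (b : ℝ) ^ q * (s : ℝ)⁻¹ := by
          rw [hx, div_eq_mul_inv]
          exact mul_le_mul_of_nonneg_right hXle (by positivity)
        calc (1 + δ) * x / ((1 - 2 * δ) * (lb * q)) ≤
            (1 + δ) * ((b : ℝ) ^ q * (s : ℝ)⁻¹) / ((1 - 2 * δ) * (lb * q)) := by gcongr
          _ = _ := by ring
      · rw [if_neg hc, if_neg hc]; simp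
    refine (Finset.sum_le_sum hterm).trans ?_
    rw [← Finset.mul_sum]
    have h3 := sum_le_VB b q _ hF
    have hpos : 0 < (1 - 2 * δ) * (lb * q) := mul_pos (by linarith) hlq
    calc (b : ℝ) ^ q * ((1 + δ) / ((1 - 2 * δ) * (lb * q))) *
          ∑ s ∈ (SMz q (X : ℝ)).filter (fun s : ℕ => (s : ℝ) ≤ S), copHom b s ≤
        (b : ℝ) ^ q * ((1 + δ) / ((1 - 2 * δ) * (lb * q))) * VB b q := by gcongr
      _ = _ := by ring
  · have hterm : ∀ s ∈ (SMz q (X : ℝ)).filter (fun s : ℕ => ¬ (s : ℝ) ≤ S),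
        (if s.Coprime b then (1 : ℝ) else 0) *
          (((Finset.Ioc 0 (X / s)).filter (fun l => l.Prime ∧ q < l)).card : ℝ) ≤
        (b : ℝ) ^ q * (s : ℝ)⁻¹ := by
      intro s _
      have h3 : (((Finset.Ioc 0 (X / s)).filter (fun l => l.Prime ∧ q < l)).card : ℝ) ≤
          (X : ℝ) * (s : ℝ)⁻¹ := by
        have h4 : ((Finset.Ioc 0 (X / s)).filter (fun l => l.Prime ∧ q < l)).card ≤ X / s := by
          refine (Finset.card_filter_le _ _).trans ?_
          rw [Nat.card_Ioc, Nat.sub_zero]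
        rw [← div_eq_mul_inv]
        exact le_trans (by exact_mod_cast h4) Nat.cast_div_le
      have h5 : (if s.Coprime b then (1 : ℝ) else 0) ≤ 1 := by split_ifs <;> norm_num
      have h6 : (0 : ℝ) ≤ (if s.Coprime b then (1 : ℝ) else 0) := by split_ifs <;> norm_num
      calc _ ≤ 1 * ((X : ℝ) * (s : ℝ)⁻¹) := mul_le_mul h5 h3 (by positivity) (by norm_num)
        _ ≤ _ := by
          rw [one_mul]
          exact mul_le_mul_of_nonneg_right hXle (by positivity)
    refine (Finset.sum_le_sum hterm).trans ?_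
    rw [← Finset.mul_sum]
    apply mul_le_mul_of_nonneg_left _ (by positivity)
    have h3 := tail_le q hS0 ((SMz q (X : ℝ)).filter (fun s : ℕ => ¬ (s : ℝ) ≤ S)) (by
      intro n hn
      rw [Finset.mem_filter, mem_SMz hXnn] at hn
      exact ⟨hn.1.1, (not_le.1 hn.2).le⟩)
    refine h3.trans (le_of_eq ?_)
    rw [hS, ← Real.exp_mul]
    ring_nf

lemma AA_low {b q : ℕ} (hb : 2 ≤ b) (h2 : b ≤ q) {δ : ℝ} (hδ : 0 < δ) (hδ1 : δ < 1 / 4)
    (hX3 : 3 ≤ δ * (Real.log b * q)) (hXδ : 1 / δ ≤ δ * (Real.log b * q))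
    (hpi : ∀ x : ℝ, Real.exp (Real.log b * q / 2) ≤ x →
      1 - δ ≤ (Nat.primeCounting ⌊x⌋₊ : ℝ) * Real.log x / x) :
    (b : ℝ) ^ q * ((1 - δ) ^ 2 / (Real.log b * q) *
      (VB b q - Real.exp (-(δ * (Real.log b * q) / 2)) * ZZ q) -
      q * Real.exp (-((1 - δ) * (Real.log b * q)))) ≤ AA b q := by
  set lb := Real.log b with hlb
  have hlb0 : 0 < lb := Real.log_pos (by exact_mod_cast hb)
  have hq0 : (0 : ℝ) < q := by exact_mod_cast (by omega : 0 < q)
  have hlq : 0 < lb * q := by positivity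
  set X := b ^ q - 1 with hX
  have hbr : (2 : ℝ) ≤ b := by exact_mod_cast hb
  have hbq : (b : ℝ) ^ q = Real.exp (lb * q) := by
    rw [mul_comm, Real.exp_nat_mul, hlb, Real.exp_log (by linarith)]
  have hXr : (X : ℝ) = (b : ℝ) ^ q - 1 := by
    rw [hX, Nat.cast_sub (Nat.one_le_pow _ _ (by omega))]
    push_cast
    rfl
  have hbig : 1 / δ ≤ (b : ℝ) ^ q := by
    rw [hbq]
    have e1 := Real.add_one_le_exp (lb * q)
    have e2 : δ * (lb * q) ≤ 1 * (lb * q) := mul_le_mul_of_nonneg_right (by linarith) hlq.le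
    linarith
  have hXge : (1 - δ) * (b : ℝ) ^ q ≤ X := by
    rw [hXr]
    rw [div_le_iff₀ hδ] at hbig
    linarith
  have hXnn : (0 : ℝ) ≤ X := Nat.cast_nonneg _
  have hXle : (X : ℝ) ≤ (b : ℝ) ^ q := by linarith
  set S := Real.exp (δ * (lb * q)) with hS
  have hS0 : 0 < S := Real.exp_pos _
  have hSX : S ≤ X := by
    refine le_trans ?_ hXge
    rw [hbq]
    have e1 : Real.exp (lb * q) = Real.exp ((1 - δ) * (lb * q)) * S := by
      rw [hS, ← Real.exp_add]; ring_nf
    rw [e1]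
    have e2 : 2 ≤ Real.exp ((1 - δ) * (lb * q)) := by
      have := Real.add_one_le_exp ((1 - δ) * (lb * q))
      have e3 : δ * (lb * q) ≤ (1 - δ) * (lb * q) := mul_le_mul_of_nonneg_right (by linarith) hlq.le
      linarith
    nlinarith
  rw [AA_eq hb h2]
  have hsub : SMz q S ⊆ SMz q (X : ℝ) := by
    intro n hn
    rw [mem_SMz hS0.le] at hn
    rw [mem_SMz hXnn]
    exact ⟨hn.1, hn.2.trans hSX⟩
  refine le_trans ?_ (Finset.sum_le_sum_of_subset_of_nonneg hsub fun i _ _ => by
    split_ifs <;> positivity)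
  have hterm : ∀ s ∈ SMz q S, (b : ℝ) ^ q * ((1 - δ) ^ 2 / (lb * q)) * copHom b s - q ≤
      (if s.Coprime b then (1 : ℝ) else 0) *
        (((Finset.Ioc 0 (X / s)).filter (fun l => l.Prime ∧ q < l)).card : ℝ) := by
    intro s hs
    rw [mem_SMz hS0.le] at hs
    obtain ⟨hs1, hsS⟩ := hs
    have hs0 : 0 < s := SM_pos hs1
    have hs0' : (0 : ℝ) < s := by exact_mod_cast hs0
    have hs1' : (1 : ℝ) ≤ s := by exact_mod_cast hs0
    rw [copHom_apply]
    by_cases hc : s.Coprime b
    · rw [if_pos hc, if_pos hc, one_mul]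
      refine le_trans ?_ (le_card_inner _ _)
      set x := (X : ℝ) / s with hx
      have hfl : X / s = ⌊x⌋₊ := by rw [hx, Nat.floor_div_eq_div]
      have hxlow : Real.exp ((1 - 2 * δ) * (lb * q)) ≤ x := by
        rw [hx, le_div_iff₀ hs0', hXr, hbq]
        have e1 : Real.exp (lb * q) = Real.exp ((1 - 2 * δ) * (lb * q)) *
            (Real.exp (δ * (lb * q)) * Real.exp (δ * (lb * q))) := by
          rw [← Real.exp_add, ← Real.exp_add]; ring_nf
        rw [e1, ← hS]
        have e2 : 1 ≤ Real.exp ((1 - 2 * δ) * (lb * q)) := Real.one_le_exp (by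
          apply mul_nonneg (by linarith) hlq.le)
        have e3 : 4 ≤ S := by
          have := Real.add_one_le_exp (δ * (lb * q))
          linarith
        have e4 : Real.exp ((1 - 2 * δ) * (lb * q)) * s ≤ Real.exp ((1 - 2 * δ) * (lb * q)) * S :=
          mul_le_mul_of_nonneg_left hsS (Real.exp_pos _).le
        have e5 : 1 ≤ Real.exp ((1 - 2 * δ) * (lb * q)) * S := by nlinarith
        have e6 : Real.exp ((1 - 2 * δ) * (lb * q)) * S * 4 ≤
            Real.exp ((1 - 2 * δ) * (lb * q)) * S * S :=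
          mul_le_mul_of_nonneg_left e3 (by positivity)
        nlinarith
      have hx0' : 0 < x := lt_of_lt_of_le (Real.exp_pos _) hxlow
      have hx1' : 1 < x := lt_of_lt_of_le (by
        have e1 := Real.add_one_le_exp ((1 - 2 * δ) * (lb * q))
        have e2 : δ * (lb * q) ≤ (1 - 2 * δ) * (lb * q) :=
          mul_le_mul_of_nonneg_right (by linarith) hlq.le
        linarith : (1 : ℝ) < Real.exp ((1 - 2 * δ) * (lb * q))) hxlow
      have hxx0 : Real.exp (lb * q / 2) ≤ x := by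
        refine le_trans (Real.exp_le_exp.2 ?_) hxlow
        nlinarith
      have hlogx : Real.log x ≤ lb * q := by
        rw [Real.log_le_iff_le_exp hx0', ← hbq, hx, div_le_iff₀ hs0']
        have : (0 : ℝ) < (b : ℝ) ^ q := by positivity
        nlinarith
      have hlogx0 : 0 < Real.log x := Real.log_pos hx1'
      have h3 := hpi x hxx0
      rw [le_div_iff₀ hx0'] at h3
      have h4 : (1 - δ) * x / (lb * q) ≤ (Nat.primeCounting (X / s) : ℝ) := by
        rw [hfl, div_le_iff₀ hlq]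
        have : (Nat.primeCounting ⌊x⌋₊ : ℝ) * Real.log x ≤
          (Nat.primeCounting ⌊x⌋₊ : ℝ) * (lb * q) := mul_le_mul_of_nonneg_left hlogx (by positivity)
        linarith
      have h5 : (1 - δ) * (b : ℝ) ^ q * (s : ℝ)⁻¹ ≤ x := by
        rw [hx, div_eq_mul_inv]
        exact mul_le_mul_of_nonneg_right hXge (by positivity)
      have h6 : (b : ℝ) ^ q * ((1 - δ) ^ 2 / (lb * q)) * (s : ℝ)⁻¹ ≤ (1 - δ) * x / (lb * q) := by
        have e1 : (b : ℝ) ^ q * ((1 - δ) ^ 2 / (lb * q)) * (s : ℝ)⁻¹ =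
            (1 - δ) * ((1 - δ) * (b : ℝ) ^ q * (s : ℝ)⁻¹) / (lb * q) := by ring
        rw [e1]
        apply div_le_div_of_nonneg_right _ hlq.le
        exact mul_le_mul_of_nonneg_left h5 (by linarith)
      linarith
    · rw [if_neg hc, if_neg hc]
      simp
  refine le_trans ?_ (Finset.sum_le_sum hterm)
  rw [Finset.sum_sub_distrib, ← Finset.mul_sum, Finset.sum_const, nsmul_eq_mul]
  have hcard : ((SMz q S).card : ℝ) * q ≤ S * q := by
    apply mul_le_mul_of_nonneg_right _ hq0.le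
    have h5 : (SMz q S).card ≤ (Finset.Ioc 0 ⌊S⌋₊).card := by
      apply Finset.card_le_card
      intro n hn
      rw [mem_SMz hS0.le] at hn
      rw [Finset.mem_Ioc]
      exact ⟨SM_pos hn.1, (Nat.le_floor_iff hS0.le).2 hn.2⟩
    rw [Nat.card_Ioc, Nat.sub_zero] at h5
    exact le_trans (by exact_mod_cast h5) (Nat.floor_le hS0.le)
  have hV := VB_le b q hS0
  have hSm : S ^ (-(1 / 2) : ℝ) = Real.exp (-(δ * (lb * q) / 2)) := by
    rw [hS, ← Real.exp_mul]; ring_nf
  rw [hSm] at hV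
  have h7 : (b : ℝ) ^ q * ((1 - δ) ^ 2 / (lb * q)) *
      (VB b q - Real.exp (-(δ * (lb * q) / 2)) * ZZ q) ≤
      (b : ℝ) ^ q * ((1 - δ) ^ 2 / (lb * q)) * ∑ s ∈ SMz q S, copHom b s := by
    apply mul_le_mul_of_nonneg_left (by linarith)
    have : 0 ≤ (1 - δ) ^ 2 / (lb * q) := by positivity
    positivity
  have h8 : (b : ℝ) ^ q * (q * Real.exp (-((1 - δ) * (lb * q)))) = S * q := by
    rw [hbq, hS]
    have : Real.exp (lb * q) * Real.exp (-((1 - δ) * (lb * q))) = Real.exp (δ * (lb * q)) := by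
      rw [← Real.exp_add]; ring_nf
    rw [← this]; ring
  have e9 : (b : ℝ) ^ q * ((1 - δ) ^ 2 / (lb * q) *
      (VB b q - Real.exp (-(δ * (lb * q) / 2)) * ZZ q) - q * Real.exp (-((1 - δ) * (lb * q)))) =
      (b : ℝ) ^ q * ((1 - δ) ^ 2 / (lb * q)) *
      (VB b q - Real.exp (-(δ * (lb * q) / 2)) * ZZ q) -
      (b : ℝ) ^ q * (q * Real.exp (-((1 - δ) * (lb * q)))) := by ring
  rw [e9, h8]
  linarith

/-- **The mean with error term.** -/
theorem mq_rate {b : ℕ} (hb : 2 ≤ b) : ∃ K : ℝ, 0 < K ∧ ∀ᶠ q : ℕ in atTop,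
    |mq b q - Real.exp Real.eulerMascheroniConstant / Real.log b * (Real.log q / q)| ≤ K / q := by
  obtain ⟨C, hC, hπ⟩ := pi_rate
  obtain ⟨C1, hC1, hV⟩ := VV_rate
  obtain ⟨C2, hC2, hZ⟩ := ZZ_rate
  set G := Real.exp Real.eulerMascheroniConstant with hG
  have hG0 : 0 < G := Real.exp_pos _
  set lb := Real.log b with hlb
  have hlb0 : 0 < lb := Real.log_pos (by exact_mod_cast hb)
  have hρ := tot_ratio_pos hb
  set ρ := (b.totient : ℝ) / b with hρd
  have hbr : (2 : ℝ) ≤ b := by exact_mod_cast hb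
  set D0 := 2 * (C2 + 1) / lb with hD0
  have hD0p : 0 < D0 := by positivity
  refine ⟨(6 * D0 * G + 3 * C1 + 1 / ρ) / lb + 1 / ρ, by positivity, ?_⟩
  obtain ⟨x0, hx0⟩ := eventually_atTop.1 hπ
  have hqr : Tendsto (fun q : ℕ => (q : ℝ)) atTop atTop := tendsto_natCast_atTop_atTop
  have e2 : ∀ᶠ q : ℕ in atTop, 4 * D0 + 1 ≤ Real.log q := log_nat_tendsto.eventually_ge_atTop _
  have elog : ∀ c : ℝ, 0 < c → ∀ᶠ q : ℕ in atTop, c * Real.log q ≤ q := by
    intro c hc
    have h1 := (Real.isLittleO_log_id_atTop).bound (show (0 : ℝ) < 1 / c by positivity)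
    have h2 : ∀ᶠ x : ℝ in atTop, c * Real.log x ≤ x := by
      filter_upwards [h1, eventually_ge_atTop 1] with x hx hx1
      rw [Real.norm_of_nonneg (Real.log_nonneg hx1), id, Real.norm_of_nonneg (by linarith),
        one_div_mul_eq_div, le_div_iff₀ hc] at hx
      linarith
    exact hqr.eventually h2
  have elog2 : ∀ c : ℝ, 0 < c → ∀ᶠ q : ℕ in atTop, c * Real.log q ^ 2 ≤ q := by
    intro c hc
    have h1 := (Real.isLittleO_pow_log_id_atTop (n := 2)).bound (show (0 : ℝ) < 1 / c by positivity)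
    have h2 : ∀ᶠ x : ℝ in atTop, c * Real.log x ^ 2 ≤ x := by
      filter_upwards [h1, eventually_ge_atTop 1] with x hx hx1
      rw [Real.norm_of_nonneg (by positivity), id, Real.norm_of_nonneg (by linarith),
        one_div_mul_eq_div, le_div_iff₀ hc] at hx
      linarith
    exact hqr.eventually h2
  have e7 : ∀ᶠ q : ℕ in atTop, (q : ℝ) ^ 2 ≤ Real.exp (lb * q * (3 / 4)) := by
    have h1 := elog2 1 one_pos
    filter_upwards [elog (2 / (lb * (3 / 4))) (by positivity), eventually_ge_atTop 1] with q hq hq1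
    have hq0 : (0 : ℝ) < q := by exact_mod_cast hq1
    rw [← Real.exp_log (show (0 : ℝ) < (q : ℝ) ^ 2 by positivity), Real.exp_le_exp, Real.log_pow]
    rw [div_mul_eq_mul_div, div_le_iff₀ (by positivity)] at hq
    push_cast
    linarith
  filter_upwards [e2, elog (2 * C / (D0 * lb)) (by positivity), elog2 1 one_pos,
    elog2 (1 / (D0 ^ 2 * lb)) (by positivity), elog (3 / (2 * (C2 + 1))) (by positivity), e7,
    hqr.eventually_ge_atTop (2 * (|x0| + 1) / lb), eventually_ge_atTop 3, eventually_ge_atTop b]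
    with q h2 h3 h4 h5 h6 h7 h8 hq3 hqb
  have hq3' : (3 : ℝ) ≤ q := by exact_mod_cast hq3
  have hq0 : (0 : ℝ) < q := by linarith
  set l := Real.log q with hl
  have hl1 : 1 ≤ l := by linarith
  have hl0 : 0 < l := by linarith
  set L := lb * q with hL
  have hL0 : 0 < L := by positivity
  set δ := D0 / l with hδ
  have hδ0 : 0 < δ := by positivity
  have hδ4 : δ < 1 / 4 := by
    rw [hδ, div_lt_iff₀ hl0]
    linarith
  have hδL : δ * L = 2 * (C2 + 1) * (q / l) := by
    rw [hδ, hL, hD0]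
    field_simp
  have hX3 : 3 ≤ δ * L := by
    rw [hδL, ← mul_div_assoc, le_div_iff₀ hl0]
    rw [div_mul_eq_mul_div, div_le_iff₀ (by positivity)] at h6
    linarith
  have hXδ : 1 / δ ≤ δ * L := by
    rw [div_le_iff₀ hδ0, hδ, hL]
    rw [one_div, inv_mul_le_iff₀ (by positivity)] at h5
    have : D0 / l * (lb * q) * (D0 / l) = D0 ^ 2 * lb * q / l ^ 2 := by field_simp
    rw [this, le_div_iff₀ (by positivity)]
    linarith
  have hpi : ∀ x : ℝ, Real.exp (L / 2) ≤ x →
      |(Nat.primeCounting ⌊x⌋₊ : ℝ) * Real.log x / x - 1| ≤ δ := by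
    intro x hx
    have hxp : 0 < x := lt_of_lt_of_le (Real.exp_pos _) hx
    have hxl : L / 2 ≤ Real.log x := by
      rw [Real.le_log_iff_exp_le hxp]; exact hx
    have hxx0 : x0 ≤ x := by
      have e1 := Real.add_one_le_exp (L / 2)
      rw [div_le_iff₀ hlb0] at h8
      have e2 := le_abs_self x0
      have e3 : |x0| + 1 ≤ L / 2 := by rw [hL]; linarith
      linarith
    refine (hx0 x hxx0).trans ?_
    have hL2 : 0 < L / 2 := by positivity
    calc C / Real.log x ≤ C / (L / 2) := by gcongr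
      _ ≤ δ := by
          rw [hδ, div_le_div_iff₀ hL2 hl0, hL]
          rw [div_mul_eq_mul_div, div_le_iff₀ (by positivity)] at h3
          linarith
  have hup := AA_up hb hqb hδ0 hδ4 hX3 (fun x hx => by linarith [(abs_le.1 (hpi x hx)).2])
  have hlo := AA_low hb hqb hδ0 hδ4 hX3 hXδ (fun x hx => by linarith [(abs_le.1 (hpi x hx)).1])
  rw [VB_eq hb hqb, ← hρd, ← hlb] at hup hlo
  rw [← hL] at hup hlo
  have hVq := abs_le.1 (hV q (by omega))
  obtain ⟨hV1, hV2⟩ := hVq
  rw [← hl] at hV1 hV2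
  have hVn := VV_nonneg q
  set E := Real.exp (-(δ * L / 2)) * ZZ q with hE
  have hE0 : 0 ≤ E := mul_nonneg (Real.exp_pos _).le (ZZ_nonneg q)
  have hE1 : E ≤ 1 / q := by
    calc E ≤ Real.exp (-(δ * L / 2)) * Real.exp (C2 * (q / l)) :=
          mul_le_mul_of_nonneg_left (hZ q (by omega)) (Real.exp_pos _).le
      _ = Real.exp (-(q / l)) := by
          rw [← Real.exp_add, hδL]
          congr 1
          ring
      _ ≤ Real.exp (-l) := by
          rw [Real.exp_le_exp, neg_le_neg_iff, le_div_iff₀ hl0]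
          nlinarith
      _ = 1 / q := by rw [Real.exp_neg, hl, Real.exp_log hq0, one_div]
  have hbq : (0 : ℝ) < (b : ℝ) ^ q := by positivity
  have hmq : mq b q = AA b q / ((b : ℝ) ^ q * ρ) := by
    unfold mq
    rw [tot_pow hb (by omega)]
  have hrest : (q : ℝ) * Real.exp (-((1 - δ) * L)) ≤ 1 / q := by
    have h9 : Real.exp (-((1 - δ) * L)) ≤ Real.exp (-(L * (3 / 4))) := by
      rw [Real.exp_le_exp]
      nlinarith
    rw [le_div_iff₀ hq0]
    calc (q : ℝ) * Real.exp (-((1 - δ) * L)) * q ≤ (q : ℝ) * Real.exp (-(L * (3 / 4))) * q := by gcongr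
      _ = (q : ℝ) ^ 2 * Real.exp (-(L * (3 / 4))) := by ring
      _ ≤ Real.exp (L * (3 / 4)) * Real.exp (-(L * (3 / 4))) := by
          apply mul_le_mul_of_nonneg_right _ (Real.exp_pos _).le
          exact h7
      _ = 1 := by rw [← Real.exp_add, add_neg_cancel, Real.exp_zero]
  -- upper bound
  have hu : mq b q ≤ (1 + 6 * δ) * (G * l + C1) / L + 1 / ρ * (1 / q) := by
    rw [hmq, div_le_iff₀ (by positivity)]
    refine hup.trans ?_
    have h1 : (1 + δ) / ((1 - 2 * δ) * L) ≤ (1 + 6 * δ) / L := by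
      have h12 : 0 < 1 - 2 * δ := by linarith
      rw [div_le_div_iff₀ (by positivity) hL0]
      nlinarith [mul_pos hδ0 hL0, mul_nonneg (mul_nonneg hδ0.le hL0.le) (by linarith : 0 ≤ 1 / 4 - δ)]
    have h2' : (1 + δ) / ((1 - 2 * δ) * L) * (VV q * ρ) ≤ (1 + 6 * δ) / L * ((G * l + C1) * ρ) := by
      refine mul_le_mul h1 ?_ (by positivity) (by positivity)
      apply mul_le_mul_of_nonneg_right _ hρ.le
      linarith
    calc (b : ℝ) ^ q * ((1 + δ) / ((1 - 2 * δ) * L) * (VV q * ρ) + E) ≤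
        (b : ℝ) ^ q * ((1 + 6 * δ) / L * ((G * l + C1) * ρ) + 1 / q) := by gcongr
      _ = _ := by field_simp
  have hl' : (1 - δ) ^ 2 * VV q / L - 1 / ρ / L - 1 / ρ * (1 / q) ≤ mq b q := by
    rw [hmq, le_div_iff₀ (by positivity)]
    refine le_trans ?_ hlo
    have h1 : (1 - δ) ^ 2 / L * E ≤ 1 / L := by
      have h9 : (1 - δ) ^ 2 ≤ 1 := by nlinarith
      have h10 : E ≤ 1 := hE1.trans (by rw [div_le_one hq0]; linarith)
      calc (1 - δ) ^ 2 / L * E ≤ 1 / L * 1 := by
            apply mul_le_mul _ h10 hE0 (by positivity)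
            exact div_le_div_of_nonneg_right h9 hL0.le
        _ = _ := mul_one _
    have e1 : ((1 - δ) ^ 2 * VV q / L - 1 / ρ / L - 1 / ρ * (1 / q)) * ((b : ℝ) ^ q * ρ) =
        (b : ℝ) ^ q * ((1 - δ) ^ 2 / L * (VV q * ρ) - 1 / L - 1 / q) := by
      field_simp
    rw [e1]
    apply mul_le_mul_of_nonneg_left _ hbq.le
    rw [mul_sub]
    linarith
  have eG : G / lb * (l / q) = G * l / L := by rw [hL]; field_simp
  rw [eG, abs_le]
  have hδl : δ * l = D0 := by rw [hδ]; field_simp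
  have eK : ((6 * D0 * G + 3 * C1 + 1 / ρ) / lb + 1 / ρ) / q =
      (6 * D0 * G + 3 * C1 + 1 / ρ) / L + 1 / ρ * (1 / q) := by
    rw [hL]
    field_simp
  rw [eK]
  have hρi : 0 < 1 / ρ := by positivity
  constructor
  · have h1 : G * l / L - (6 * D0 * G + 3 * C1 + 1 / ρ) / L ≤
        (1 - δ) ^ 2 * VV q / L - 1 / ρ / L := by
      rw [← sub_div, ← sub_div]
      apply div_le_div_of_nonneg_right _ hL0.le
      have h9 : (1 - 2 * δ) * VV q ≤ (1 - δ) ^ 2 * VV q := by
        apply mul_le_mul_of_nonneg_right _ hVn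
        nlinarith
      have h10 : 2 * δ * VV q ≤ 2 * D0 * G + C1 := by
        calc 2 * δ * VV q ≤ 2 * δ * (G * l + C1) := by
              apply mul_le_mul_of_nonneg_left _ (by positivity)
              linarith
          _ = 2 * (δ * l) * G + 2 * δ * C1 := by ring
          _ ≤ _ := by rw [hδl]; nlinarith
      have h11 : 0 < D0 * G := by positivity
      nlinarith
    linarith
  · have h1 : (1 + 6 * δ) * (G * l + C1) / L ≤ G * l / L + (6 * D0 * G + 3 * C1 + 1 / ρ) / L := by
      rw [← add_div]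
      apply div_le_div_of_nonneg_right _ hL0.le
      have h9 : (1 + 6 * δ) * (G * l + C1) = G * l + 6 * (δ * l) * G + C1 + 6 * δ * C1 := by ring
      rw [h9, hδl]
      nlinarith
    linarith

end Pool.Agent.K3h13.AD
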