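import Pool.Agent.K3h13.AD.OA
import Pool.Agent.K3h13.AD.NV
import Pool.Agent.TH888.R.Asy
import Pool.Agent.TH888.R.Row

set_option autoImplicit false

/-!
# Twisted low digits form a system
-/

open Filter Topology Finset MeasureTheory
open scoped Real

namespace Pool.Agent.K3h13.AD

open Pool.Agent.W66
open Pool.Agent.W66L
open Pool.Agent.TH888.R (Sys Pt wt VS cS)
open Pool.Agent.H305R2 (roughPart roughPart_prime SM SM_pos SMz mem_SMz ZZ VV sum_rough_eq sum_le_VV
  tail_le ZZ_le_exp ZZ_nonneg VV_nonneg VV_tendsto log_nat_tendsto)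

/-- the row sums of the correlation matrix -/
theorem CT_row_set {b v : ℕ} (hb : 2 ≤ b) (hv : 1 ≤ v) (hvb : v < b) {w : ℕ → ℕ → ℕ}
    (hw : ∀ p q, w p q * v ^ (q - p) ≡ 1 [MOD b ^ p]) :
    ∃ κ C : ℝ, 0 < κ ∧ 0 < C ∧ ∃ P : ℕ, 3 ≤ P ∧ ∀ q ≥ P, ∀ T : Finset ℕ,
      (∀ p ∈ T, p.Prime ∧ P ≤ p ∧ p < q) → ∑ p ∈ T, |CT b p q (w p q)| ≤
        C * ((Real.log q / q) *
          (1 + ∑ p ∈ T.filter (fun p : ℕ => κ * q / Real.log q < (p : ℝ)), Real.log p / p)) := by
  classical
  obtain ⟨κ, K1, hκ, hK1, hfar⟩ := rough_L1 hb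
  obtain ⟨P1, hP1⟩ := eventually_atTop.1 hfar
  obtain ⟨K2, hK2, hmid⟩ := mid_tw hb
  obtain ⟨P2, hP2⟩ := eventually_atTop.1 hmid
  obtain ⟨K3, hK3, hnear⟩ := near_tw hb hv hvb
  obtain ⟨P3, hP3⟩ := eventually_atTop.1 hnear
  obtain ⟨K4, hK4, hmq⟩ := mq_le hb
  obtain ⟨P4, hP4⟩ := eventually_atTop.1 hmq
  have hρ := tot_ratio_pos hb
  set ρ := (b.totient : ℝ) / b with hρdef
  set J : ℕ → ℕ → ℝ := fun p q => if 1 ≤ p then CT b p q (w p q) else 0 with hJ
  set K := K1 / ρ + (K2 / ρ + K4 ^ 2) + (K3 / ρ + K4 + K4 ^ 2) with hK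
  have hKpos : 0 < K := by positivity
  have hw0 : ∀ m : ℕ, 0 ≤ Real.log m / m := fun m =>
    div_nonneg (Real.log_natCast_nonneg m) (Nat.cast_nonneg m)
  have hanti : ∀ p q : ℕ, 3 ≤ p → p ≤ q → Real.log q / q ≤ Real.log p / p := by
    intro p q hp hpq
    apply Real.log_div_self_antitoneOn
    · show Real.exp 1 ≤ (p : ℝ)
      have : (3 : ℝ) ≤ p := by exact_mod_cast hp
      linarith [Real.exp_one_lt_d9]
    · show Real.exp 1 ≤ (q : ℝ)
      have : (3 : ℝ) ≤ q := by exact_mod_cast hp.trans hpq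
      linarith [Real.exp_one_lt_d9]
    · exact_mod_cast hpq
  obtain ⟨C, hC, P', hP', hP3', hrow⟩ := Pool.Agent.TH888.R.row_set (κ := κ) (K := K) hκ hKpos hb J
    (P1 + P2 + P3 + P4 + 3)
    (by
      intro q hq p hp
      have hlq : 0 ≤ Real.log q / (q : ℝ) ^ 2 :=
        div_nonneg (Real.log_natCast_nonneg q) (by positivity)
      simp only [hJ]
      split_ifs with hp1
      · haveI : NeZero b := ⟨by omega⟩
        obtain ⟨h1, h2⟩ := hP1 q (by omega) ⌊κ * q / Real.log q⌋₊ rfl
        have hpk : p ≤ ⌊κ * q / Real.log q⌋₊ := Nat.le_floor hp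
        have h3 := far_tw (p := p) (w p q) hb hp1 hpk h1
        have hφ := tot_pow_pos hb q
        unfold CT
        rw [abs_div, abs_of_pos hφ, div_le_iff₀ hφ, tot_pow hb (by omega)]
        refine (h3.trans h2).trans ?_
        rw [← hρdef]
        have hKK : K1 ≤ K * ρ := by
          have : K1 / ρ ≤ K := by rw [hK]; have : 0 < K2 / ρ := by positivity
                                  have : 0 < K3 / ρ := by positivity
                                  nlinarith [sq_nonneg K4]
          rwa [div_le_iff₀ hρ] at this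
        calc K1 * ((b : ℝ) ^ q * (Real.log q / (q : ℝ) ^ 2)) ≤
            (K * ρ) * ((b : ℝ) ^ q * (Real.log q / (q : ℝ) ^ 2)) :=
              mul_le_mul_of_nonneg_right hKK (by positivity)
          _ = _ := by ring
      · rw [abs_zero]; exact mul_nonneg hKpos.le hlq)
    (by
      intro p hp q hq
      have hp1 : 1 ≤ p := by omega
      simp only [hJ]
      rw [if_pos hp1, CT_eq hb hp1 (by omega) (coprime_of_inv hp1 (hw p q)), tot_pow hb (by omega),
        ← hρdef]
      have h1 := hP2 p (by omega) q hq (w p q) (coprime_of_inv hp1 (hw p q))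
      have h2 := hP4 p (by omega)
      have h3 := hP4 q (by omega)
      have hm1 := mq_nonneg b p
      have hm2 := mq_nonneg b q
      have hwp := hw0 p
      have hwq := hw0 q
      have hJC0 : 0 ≤ JT b p q (w p q) :=
        Finset.sum_nonneg fun m _ => mul_nonneg (rpi_nonneg _ _) (rpi_nonneg _ _)
      have hbq : (0 : ℝ) < (b : ℝ) ^ q := by positivity
      have h4 : JT b p q (w p q) / ((b : ℝ) ^ q * ρ) ≤ K2 / ρ * ((Real.log p / p) * (Real.log q / q)) := by
        rw [div_le_iff₀ (by positivity)]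
        refine h1.trans (le_of_eq ?_)
        field_simp
      have h4' : 0 ≤ JT b p q (w p q) / ((b : ℝ) ^ q * ρ) := by positivity
      have h5 : mq b p * mq b q ≤ K4 ^ 2 * ((Real.log p / p) * (Real.log q / q)) := by
        calc mq b p * mq b q ≤ (K4 * (Real.log p / p)) * (K4 * (Real.log q / q)) :=
              mul_le_mul h2 h3 hm2 (by positivity)
          _ = _ := by ring
      have h5' : 0 ≤ mq b p * mq b q := mul_nonneg hm1 hm2
      have h6 : 0 ≤ (Real.log p / p) * (Real.log q / q) := mul_nonneg hwp hwq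
      have hKK : K2 / ρ + K4 ^ 2 ≤ K := by
        rw [hK]
        have : 0 < K1 / ρ := by positivity
        have : 0 < K3 / ρ := by positivity
        nlinarith [sq_nonneg K4]
      calc |JT b p q (w p q) / ((b : ℝ) ^ q * ρ) - mq b p * mq b q| ≤
          JT b p q (w p q) / ((b : ℝ) ^ q * ρ) + mq b p * mq b q := by
            rw [abs_le]; constructor <;> linarith
        _ ≤ (K2 / ρ + K4 ^ 2) * ((Real.log p / p) * (Real.log q / q)) := by linarith
        _ ≤ _ := mul_le_mul_of_nonneg_right hKK h6)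
    (by
      intro p hp q hpq hq2
      have hp1 : 1 ≤ p := by omega
      simp only [hJ]
      rw [if_pos hp1, CT_eq hb hp1 hpq.le (coprime_of_inv hp1 (hw p q))]
      have h1 := hP3 p (by omega) q hpq hq2 (w p q) (hw p q)
      have h2 := hP4 p (by omega)
      have h3 := hP4 q (by omega)
      have hm1 := mq_nonneg b p
      have hm2 := mq_nonneg b q
      have hwp := hw0 p
      have hwq := hw0 q
      have hJC0 : 0 ≤ JT b p q (w p q) :=
        Finset.sum_nonneg fun m _ => mul_nonneg (rpi_nonneg _ _) (rpi_nonneg _ _)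
      have hφ := tot_pow_pos hb q
      have hφp := tot_pow_pos hb p
      have hbqp : (0 : ℝ) < (b : ℝ) ^ (q - p) := by
        have : (0 : ℝ) < b := by exact_mod_cast (by omega : 0 < b)
        positivity
      have e1 : AA b p / ((b ^ q).totient : ℝ) = ((b : ℝ) ^ (q - p))⁻¹ * mq b p := by
        rw [tot_lift hb hp1 hpq.le]
        unfold mq
        field_simp
      have h4 : JT b p q (w p q) / ((b ^ q).totient : ℝ) ≤
          ((b : ℝ) ^ (q - p))⁻¹ * mq b p + K3 / ρ * (Real.log p / p) ^ 2 := by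
        rw [← e1, div_le_iff₀ hφ, add_mul, div_mul_cancel₀ _ hφ.ne']
        refine h1.trans ?_
        rw [tot_pow hb (by omega), ← hρdef]
        apply le_of_eq
        field_simp
      have h4' : 0 ≤ JT b p q (w p q) / ((b ^ q).totient : ℝ) := by positivity
      have h5 : mq b p * mq b q ≤ K4 ^ 2 * (Real.log p / p) ^ 2 := by
        calc mq b p * mq b q ≤ (K4 * (Real.log p / p)) * (K4 * (Real.log q / q)) :=
              mul_le_mul h2 h3 hm2 (by positivity)
          _ ≤ (K4 * (Real.log p / p)) * (K4 * (Real.log p / p)) := by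
              apply mul_le_mul_of_nonneg_left _ (by positivity)
              exact mul_le_mul_of_nonneg_left (hanti p q (by omega) hpq.le) hK4.le
          _ = _ := by ring
      have h5' : 0 ≤ mq b p * mq b q := mul_nonneg hm1 hm2
      have h6 : ((b : ℝ) ^ (q - p))⁻¹ * mq b p ≤ K4 * (((b : ℝ) ^ (q - p))⁻¹ * (Real.log p / p)) := by
        calc ((b : ℝ) ^ (q - p))⁻¹ * mq b p ≤ ((b : ℝ) ^ (q - p))⁻¹ * (K4 * (Real.log p / p)) :=
              mul_le_mul_of_nonneg_left h2 (by positivity)
          _ = _ := by ring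
      have h7 : 0 ≤ ((b : ℝ) ^ (q - p))⁻¹ * (Real.log p / p) := mul_nonneg (by positivity) hwp
      have h8 : 0 ≤ (Real.log p / p) ^ 2 := sq_nonneg _
      have hKK1 : K3 / ρ + K4 ^ 2 ≤ K := by
        rw [hK]
        have : 0 < K1 / ρ := by positivity
        have : 0 < K2 / ρ := by positivity
        nlinarith [sq_nonneg K4]
      have hKK2 : K4 ≤ K := by
        rw [hK]
        have : 0 < K1 / ρ := by positivity
        have : 0 < K2 / ρ := by positivity
        have : 0 < K3 / ρ := by positivity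
        nlinarith [sq_nonneg K4]
      calc |JT b p q (w p q) / ((b ^ q).totient : ℝ) - mq b p * mq b q| ≤
          JT b p q (w p q) / ((b ^ q).totient : ℝ) + mq b p * mq b q := by
            rw [abs_le]; constructor <;> linarith
        _ ≤ K4 * (((b : ℝ) ^ (q - p))⁻¹ * (Real.log p / p)) +
            (K3 / ρ + K4 ^ 2) * (Real.log p / p) ^ 2 := by linarith
        _ ≤ K * (((b : ℝ) ^ (q - p))⁻¹ * (Real.log p / p)) + K * (Real.log p / p) ^ 2 :=
            add_le_add (mul_le_mul_of_nonneg_right hKK2 h7) (mul_le_mul_of_nonneg_right hKK1 h8)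
        _ = _ := by ring)
  refine ⟨κ, C, hκ, hC, P', hP3', fun q hq T hT => ?_⟩
  refine le_trans (le_of_eq ?_) (hrow q hq T hT)
  refine Finset.sum_congr rfl fun p hp => ?_
  have hp1 : 1 ≤ p := (hT p hp).1.pos
  simp only [hJ]
  rw [if_pos hp1]

/-- **Twisted low digits form a system.** -/
theorem sys_TS {Ω : Type*} [MeasurableSpace Ω] {μ : Measure Ω} [IsProbabilityMeasure μ] {b v : ℕ}
    {r : ℕ → Ω → ℕ} {w : ℕ → ℕ → ℕ} (hb : 2 ≤ b) (hv : 1 ≤ v) (hvb : v < b)
    (hw : ∀ p q, w p q * v ^ (q - p) ≡ 1 [MOD b ^ p]) (hr : TS b μ r w) :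
    Sys μ (fun q x => rpi q (r q x)) (fun q _ => mq b q)
      (fun _ => Real.exp Real.eulerMascheroniConstant / Real.log b) := by
  have hlb0 : 0 < Real.log b := Real.log_pos (by exact_mod_cast hb)
  obtain ⟨Km, hKm, hmean⟩ := mq_rate hb
  obtain ⟨Pm, hPm⟩ := eventually_atTop.1 hmean
  obtain ⟨κ, C, hκ, hC, P, hP3, hrow⟩ := CT_row_set hb hv hvb hw
  obtain ⟨K, hK, hmq⟩ := mq_le hb
  obtain ⟨P1, hP1⟩ := eventually_atTop.1 hmq
  have hmq1 : ∀ q, mq b q ≤ 1 := by
    intro q
    rcases Nat.eq_zero_or_pos q with h | h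
    · subst h
      unfold mq AA
      simp
    · exact mq_le_one hb h
  have hw0 : ∀ m : ℕ, 0 ≤ Real.log m / m := fun m =>
    div_nonneg (Real.log_natCast_nonneg m) (Nat.cast_nonneg m)
  refine ⟨fun q => (measurable_from_nat (f := rpi q)).comp (hr.meas q), fun q => measurable_const,
    fun q x => ?_, fun q _ => mq_nonneg b q, fun q _ => hmq1 q, ?_, ?_, ?_, ?_⟩
  · unfold rpi
    split_ifs
    · right; rfl
    · left; rfl
  · refine ⟨Km, hKm.le, Pm, Eventually.of_forall fun x q hq _ => ?_⟩
    refine (hPm q hq).trans (le_of_eq ?_)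
    ring
  · exact ⟨Real.exp Real.eulerMascheroniConstant / Real.log b,
      Real.exp Real.eulerMascheroniConstant / Real.log b, by positivity,
      Eventually.of_forall fun x => ⟨le_rfl, le_rfl⟩⟩
  · refine ⟨κ, C + K, hκ, by positivity, P + P1, by omega, fun q hq hqp => ?_, fun q hq hqp T hT => ?_⟩
    · have h := Gc_diag hr hb q (by omega)
      unfold Gc at h
      simp only [if_pos hqp] at h
      refine (h.trans (hP1 q (by omega))).trans ?_
      unfold wt
      exact mul_le_mul_of_nonneg_right (by linarith) (hw0 q)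
    · have h1 : ∀ p ∈ T, |∫ x, (rpi p (r p x) - mq b p) * (rpi q (r q x) - mq b q) ∂μ| ≤
          |CT b p q (w p q)| := by
        intro p hp
        obtain ⟨g1, g2, g3⟩ := hT p hp
        have h := Gc_prod hr g1 g3
        unfold Gc at h
        simp only [if_pos g1, if_pos hqp] at h
        exact h
      refine (Finset.sum_le_sum h1).trans ((hrow q (by omega) T fun p hp => ?_).trans ?_)
      · obtain ⟨g1, g2, g3⟩ := hT p hp
        exact ⟨g1, by omega, g3⟩
      · unfold wt
        apply mul_le_mul_of_nonneg_right (by linarith)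
        refine mul_nonneg (hw0 q) (add_nonneg zero_le_one (Finset.sum_nonneg fun p _ => hw0 p))
  · refine ⟨K, hK.le, P1, fun q hq hqp => ?_⟩
    have h1 := hr.int q hqp.one_lt.le (rpi q)
    rw [h1, sum_UU_rpi hb, mul_div_assoc, div_self (tot_pow_pos hb q).ne', mul_one]
    exact hP1 q hq

/-- from the reduced residues to all residues -/
theorem full_to_low {Ω : Type*} [MeasurableSpace Ω] {μ : Measure Ω} [IsFiniteMeasure μ] {b : ℕ}
    {s : ℕ → Ω → ℕ} (hb : 2 ≤ b) (hs : Full b μ s) {Q : Ω → Prop}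
    (hQ : ∀ ν : Measure Ω, IsProbabilityMeasure ν → Low b ν s → ∀ᵐ x ∂ν, Q x) :
    ∀ᵐ x ∂μ, (s 1 x).Coprime b → Q x := by
  classical
  rcases eq_or_ne (μ Set.univ) 0 with h0 | h0
  · rw [Measure.measure_univ_eq_zero] at h0
    rw [h0]
    simp
  have hc : 0 < μ.real Set.univ := by
    rw [measureReal_def]
    exact ENNReal.toReal_pos h0 (measure_ne_top _ _)
  set A : Set Ω := {x | (s 1 x).Coprime b} with hA
  have hAm : MeasurableSet A := (hs.meas 1) (MeasurableSet.of_discrete (s := {m : ℕ | m.Coprime b}))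
  have hb0 : (0 : ℝ) < b := by exact_mod_cast (by omega : 0 < b)
  have hφ : (0 : ℝ) < b.totient := by exact_mod_cast Nat.totient_pos.2 (by omega)
  have hAr : μ.real A = μ.real Set.univ * (b.totient : ℝ) / b := by
    have e : A = ⋃ a ∈ (UU b 1), {x | s 1 x = a} := by
      ext x
      simp only [hA, Set.mem_setOf_eq, Set.mem_iUnion, exists_prop]
      constructor
      · intro h
        exact ⟨s 1 x, mem_UU.2 ⟨hs.lt hb 1 x, h⟩, rfl⟩
      · rintro ⟨a, ha, h⟩
        rw [h]
        exact (mem_UU.1 ha).2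
    rw [e, measureReal_biUnion_finset]
    · have h1 : ∀ a ∈ UU b 1, μ.real {x | s 1 x = a} = μ.real Set.univ / (b : ℝ) ^ 1 := by
        intro a ha
        exact hs.unif 1 a (mem_UU.1 ha).1
      rw [Finset.sum_congr rfl h1, Finset.sum_const, nsmul_eq_mul, card_UU hb le_rfl, pow_one, pow_one]
      ring
    · intro a _ a' _ haa
      rw [Function.onFun, Set.disjoint_left]
      intro x hx hx'
      exact haa (hx.symm.trans hx')
    · intro a _
      exact (hs.meas 1) (measurableSet_singleton a)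
  have hApos : 0 < μ.real A := by rw [hAr]; positivity
  have hA0 : μ A ≠ 0 := by
    intro h
    rw [measureReal_def, h] at hApos
    simp at hApos
  haveI : IsProbabilityMeasure (ProbabilityTheory.cond μ A) :=
    ProbabilityTheory.cond_isProbabilityMeasure hA0
  have hlow : Low b (ProbabilityTheory.cond μ A) s := by
    refine ⟨hs.meas, hs.compat, fun n hn a ha hac => ?_⟩
    have hsub : {x | s n x = a} ⊆ A := by
      intro x hx
      simp only [hA, Set.mem_setOf_eq]
      rw [← hs.mod_b hb x hn, Set.mem_setOf_eq.mp hx]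
      rw [Nat.Coprime, (Nat.mod_modEq a b).gcd_eq]
      exact hac
    have h1 : (ProbabilityTheory.cond μ A).real {x | s n x = a} =
        (μ.real A)⁻¹ * μ.real {x | s n x = a} := by
      rw [measureReal_def, ProbabilityTheory.cond_apply hAm, Set.inter_eq_self_of_subset_right hsub,
        ENNReal.toReal_mul, ENNReal.toReal_inv]
      rfl
    rw [h1, hs.unif n a ha, hAr, tot_pow hb hn]
    field_simp
  have h := hQ _ inferInstance hlow
  have h2 : ∀ᵐ x ∂(μ.restrict A), Q x := by
    unfold ProbabilityTheory.cond at h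
    rwa [Measure.ae_ennreal_smul_measure_iff] at h
    exact ENNReal.inv_ne_zero.2 (measure_ne_top _ _)
  rwa [ae_restrict_iff' hAm] at h2

/-- the law with error term and the dichotomy, for all signs -/
theorem pt_int {Ω : Type*} [MeasurableSpace Ω] {μ : Measure Ω} [IsFiniteMeasure μ] {b : ℕ}
    {s : ℕ → Ω → ℕ} (hb : 2 ≤ b) (hs : Full b μ s) (c : ℤ) (hc : |c| < b)
    (hcb : IsCoprime (b : ℤ) c) (S : Set ℕ) : ∀ᵐ x ∂μ, (s 1 x).Coprime b →
    Pt (fun p => rs b c (s p x) p) (Real.exp Real.eulerMascheroniConstant / Real.log b) S := by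
  obtain ⟨v, hv⟩ := Int.eq_nat_or_neg c
  have hv1 : 1 ≤ v := by
    rcases Nat.eq_zero_or_pos v with h | h
    · exfalso
      subst h
      have : c = 0 := by rcases hv with h | h <;> simpa using h
      rw [this, isCoprime_zero_right] at hcb
      have := Int.isUnit_iff_natAbs_eq.1 hcb
      simp at this
      omega
    · exact h
  have hvc : v.Coprime b := by
    have h1 := Int.isCoprime_iff_gcd_eq_one.1 hcb
    rw [Nat.coprime_comm]
    rcases hv with h | h
    · rw [h] at h1
      exact h1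
    · rw [h, Int.gcd_neg] at h1
      exact h1
  have hvb : v < b := by
    have : |c| = v := by
      rcases hv with h | h
      · rw [h]; simp
      · rw [h]; simp
    rw [this] at hc
    exact_mod_cast hc
  have hlt : ∀ n x, s n x ≤ b ^ n := fun n x => (hs.lt hb n x).le
  rcases hv with hv | hv
  · refine full_to_low hb hs fun ν hν hlow => ?_
    have h1 := sys_TS hb hv1 hvb (w := fun p q => iv b v p (q - p))
      (fun p q => iv_spec hb hvc p (q - p)) (tw_TS hb hvc hlow fun p q => iv_spec hb hvc p (q - p))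
    refine h1.pt (s := fun x p => rs b c (s p x) p) (Eventually.of_forall fun x => ⟨0, fun p _ _ => ?_⟩) S
    rw [hv, rs_pos (by omega) v s p x]
    rfl
  · have h0 := full_to_low hb (Full_ng hb hs)
      (Q := fun x => Pt (fun p => rs b c (s p x) p)
        (Real.exp Real.eulerMascheroniConstant / Real.log b) S) (fun ν hν hlow => by
      have h1 := sys_TS hb hv1 hvb (w := fun p q => iv b v p (q - p))
        (fun p q => iv_spec hb hvc p (q - p)) (tw_TS hb hvc hlow fun p q => iv_spec hb hvc p (q - p))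
      refine h1.pt (s := fun x p => rs b c (s p x) p)
        (Eventually.of_forall fun x => ⟨3, fun p hp3 hp => ?_⟩) S
      rw [hv, rs_neg (by omega) v s hlt (hp.odd_of_ne_two (by omega)) x]
      rfl)
    filter_upwards [h0] with x hx h1
    exact hx (ng_coprime hb hs x h1)

end Pool.Agent.K3h13.AD
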